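import Pool.Agent.Swisher.Ratio

set_option autoImplicit false
set_option linter.unusedSectionVars false

open Finset Polynomial

namespace Pool.Agent.Swisher

/-- homogenised version of `Fp` -/
noncomputable def FpS (c : ℤ) (K : ℕ) : ℤ[X] :=
  ∑ k ∈ range (K+1), C ((-1)^k * (4*(k:ℤ)+1) * (Nat.centralBinom k : ℤ) * 4^(K-k))
    * ((∏ l ∈ range k, (C ((2*(l:ℤ)+1)^4*c) - X)) * ∏ l ∈ Ico k K, (C ((2*(l:ℤ)+2)^4*c) - X))

lemma FpS_one (K : ℕ) : FpS 1 K = Fp K := by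
  unfold FpS Fp
  simp only [mul_one]

lemma FpS_comp (c : ℤ) (K : ℕ) : (FpS c K).comp (C c * X) = C (c^K) * Fp K := by
  unfold FpS Fp
  rw [mul_sum]
  have hs : ∀ f : ℕ → ℤ[X], (∑ k ∈ range (K+1), f k).comp (C c * X)
      = ∑ k ∈ range (K+1), (f k).comp (C c * X) := by
    intro f
    exact map_sum (compRingHom (C c * X)) f _
  rw [hs]
  simp only [mul_comp, C_comp, Polynomial.prod_comp, sub_comp, X_comp]
  apply sum_congr rfl
  intro k hk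
  have hk' : k ≤ K := by simpa [Nat.lt_succ_iff] using hk
  have h1 : ∏ l ∈ range k, (C ((2*(l:ℤ)+1)^4*c) - C c * X)
      = C (c^k) * ∏ l ∈ range k, (C ((2*(l:ℤ)+1)^4) - X) := by
    have : C (c^k) = ∏ _l ∈ range k, (C c : ℤ[X]) := by simp
    rw [this, ← prod_mul_distrib]
    apply prod_congr rfl
    intro l _
    rw [C_mul]; ring
  have h2 : ∏ l ∈ Ico k K, (C ((2*(l:ℤ)+2)^4*c) - C c * X)
      = C (c^(K-k)) * ∏ l ∈ Ico k K, (C ((2*(l:ℤ)+2)^4) - X) := by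
    have : C (c^(K-k)) = ∏ _l ∈ Ico k K, (C c : ℤ[X]) := by simp
    rw [this, ← prod_mul_distrib]
    apply prod_congr rfl
    intro l _
    rw [C_mul]; ring
  rw [h1, h2]
  have h3 : (C (c^K) : ℤ[X]) = C (c^k) * C (c^(K-k)) := by
    rw [← C_mul, ← pow_add]
    congr 2
    omega
  rw [h3]
  ring

lemma FpS_natDegree (c : ℤ) (K : ℕ) : (FpS c K).natDegree ≤ K := by
  unfold FpS
  apply natDegree_sum_le_of_forall_le
  intro k hk
  have hk' : k ≤ K := by simpa [Nat.lt_succ_iff] using hk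
  have hlin : ∀ a : ℤ, (C a - X : ℤ[X]).natDegree ≤ 1 := by
    intro a
    refine (natDegree_sub_le _ _).trans ?_
    simp
  have h1 : (∏ l ∈ range k, (C ((2*(l:ℤ)+1)^4*c) - X)).natDegree ≤ k := by
    refine (natDegree_prod_le _ _).trans ?_
    refine (sum_le_sum (fun l _ => hlin _)).trans ?_
    simp
  have h2 : (∏ l ∈ Ico k K, (C ((2*(l:ℤ)+2)^4*c) - X)).natDegree ≤ K - k := by
    refine (natDegree_prod_le _ _).trans ?_
    refine (sum_le_sum (fun l _ => hlin _)).trans ?_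
    simp
  refine (natDegree_C_mul_le _ _).trans ?_
  refine (natDegree_mul_le).trans ?_
  omega

theorem dvd_coeff_FpS (c : ℤ) (hc : c ≠ 0) (K i : ℕ) : (2*(K:ℤ)+1) ∣ (FpS c K).coeff i := by
  rcases le_or_gt i K with hi | hi
  · have h := congrArg (fun f => coeff f i) (FpS_comp c K)
    simp only [comp_C_mul_X_coeff, coeff_C_mul] at h
    have h2 : (c:ℤ)^K = c^i * c^(K-i) := by rw [← pow_add]; congr 1; omega
    rw [h2] at h
    have hci : c^i ≠ 0 := pow_ne_zero _ hc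
    have h3 : (FpS c K).coeff i = c^(K-i) * (Fp K).coeff i := by
      apply mul_left_cancel₀ hci
      linear_combination h
    rw [h3]
    exact Dvd.dvd.mul_left (dvd_coeff_Fp K i) _
  · rw [coeff_eq_zero_of_natDegree_lt (lt_of_le_of_lt (FpS_natDegree c K) hi)]
    exact dvd_zero _

/-- evaluation of `FpS` -/
lemma eval_FpS (c U : ℤ) (hc : c ≠ 0) (K : ℕ) (h : ∀ l : ℕ, (2*(l:ℤ)+2)^4*c - U ≠ 0) :
    (((FpS c K).eval U : ℤ) : ℚ)
      = 4^K * (∏ l ∈ range K, ((2*(l:ℚ)+2)^4*c - U)) * TT ((U:ℚ)/c) K := by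
  have hc' : (c:ℚ) ≠ 0 := by exact_mod_cast hc
  have h' : ∀ l : ℕ, (2*(l:ℚ)+2)^4*c - U ≠ 0 := by
    intro l
    have := h l
    exact_mod_cast this
  unfold FpS TT
  rw [eval_finsetSum, mul_sum]
  push_cast
  apply sum_congr rfl
  intro k hk
  have hk' : k ≤ K := by simpa [Nat.lt_succ_iff] using hk
  simp only [eval_mul, eval_C, eval_prod, eval_sub, eval_X]
  push_cast
  have h1 : ∏ l ∈ range K, ((2*(l:ℚ)+2)^4*c - U)
      = (∏ l ∈ range k, ((2*(l:ℚ)+2)^4*c - U)) * ∏ l ∈ Ico k K, ((2*(l:ℚ)+2)^4*c - U) := by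
    rw [range_eq_Ico, range_eq_Ico, prod_Ico_consecutive _ (Nat.zero_le k) hk']
  have h2 : ∏ j ∈ range k, (((2*(j:ℚ)+1)^4 - U/c) / ((2*(j:ℚ)+2)^4 - U/c))
      = (∏ j ∈ range k, ((2*(j:ℚ)+1)^4*c - U)) / ∏ j ∈ range k, ((2*(j:ℚ)+2)^4*c - U) := by
    rw [← prod_div_distrib]
    apply prod_congr rfl
    intro j _
    have hj := h' j
    have e1 : (2*(j:ℚ)+1)^4 - U/c = ((2*(j:ℚ)+1)^4*c - U)/c := by field_simp
    have e2 : (2*(j:ℚ)+2)^4 - U/c = ((2*(j:ℚ)+2)^4*c - U)/c := by field_simp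
    rw [e1, e2, div_div_div_cancel_right₀ hc']
  rw [h1, h2]
  have h3 : ∏ l ∈ range k, ((2*(l:ℚ)+2)^4*c - U) ≠ 0 := prod_ne_zero_iff.mpr (fun l _ => h' l)
  have h4 : (4:ℚ)^K = 4^k * 4^(K-k) := by rw [← pow_add]; congr 1; omega
  have h4k : (4:ℚ)^k ≠ 0 := pow_ne_zero _ (by norm_num)
  have hb : beta ℚ k * 4^k = (Nat.centralBinom k : ℚ) := by unfold beta cb; field_simp
  rw [h4, ← hb]
  generalize (∏ l ∈ range k, ((2*(l:ℚ)+2)^4*c - U)) = P1 at *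
  generalize (∏ l ∈ Ico k K, ((2*(l:ℚ)+2)^4*c - U)) = P2 at *
  generalize (∏ l ∈ range k, ((2*(l:ℚ)+1)^4*c - U)) = P3 at *
  field_simp

/-- splitting a product over `range K` according to divisibility by `p` -/
lemma range_split {M : Type*} [CommMonoid M] (g : ℕ → M) (p k K : ℕ) (hp : 1 ≤ p)
    (hK : p * (2*k+1) = 2*K+1) :
    ∏ l ∈ range K, g (l+1)
      = (∏ l ∈ range K, (if p ∣ (l+1) then 1 else g (l+1))) * ∏ l ∈ range k, g (p*(l+1)) := by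
  have h1 : ∏ l ∈ range K, g (l+1) = (∏ l ∈ range K, (if p ∣ (l+1) then 1 else g (l+1)))
      * ∏ l ∈ range K, (if p ∣ (l+1) then g (l+1) else 1) := by
    rw [← prod_mul_distrib]
    apply prod_congr rfl
    intro j _
    by_cases h : p ∣ (j+1) <;> simp [h]
  rw [h1]
  congr 1
  rw [prod_ite, prod_const_one, mul_one]
  symm
  apply prod_bij (fun (l:ℕ) _ => p*(l+1)-1)
  · intro l hl
    simp only [mem_filter, mem_range] at hl ⊢
    have h3 : 1 ≤ p*(l+1) := Nat.mul_pos hp (by omega)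
    have h4 : 2*(p*(l+1)) + p ≤ 2*K+1 := by rw [← hK]; nlinarith
    refine ⟨by omega, ?_⟩
    rw [Nat.sub_add_cancel h3]
    exact dvd_mul_right _ _
  · intro a _ b _ hab
    have h3 : 1 ≤ p*(a+1) := Nat.mul_pos hp (by omega)
    have h4 : 1 ≤ p*(b+1) := Nat.mul_pos hp (by omega)
    have h5 : p*(a+1) = p*(b+1) := by omega
    have := Nat.eq_of_mul_eq_mul_left (by omega) h5
    omega
  · intro b hb
    simp only [mem_filter, mem_range] at hb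
    obtain ⟨hb1, ⟨j, hj⟩⟩ := hb
    have hj1 : 1 ≤ j := by
      rcases Nat.eq_zero_or_pos j with h | h
      · subst h; simp at hj
      · exact h
    refine ⟨j-1, ?_, ?_⟩
    · simp only [mem_range]
      have h6 : p*(2*j) < p*(2*k+1) := by
        rw [hK]
        have : p*(2*j) = 2*(p*j) := by ring
        omega
      have h7 : 2*j < 2*k+1 := Nat.lt_of_mul_lt_mul_left h6
      omega
    · rw [Nat.sub_add_cancel hj1, ← hj]
      simp
  · intro a _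
    have h3 : 1 ≤ p*(a+1) := Nat.mul_pos hp (by omega)
    rw [Nat.sub_add_cancel h3]

section main

variable (p : ℕ)

/-- the polynomial `P(U)` -/
noncomputable def PT (Q : ℕ) : ℤ[X] :=
  ∏ i ∈ range Q, (if p ∣ (i+1) then 1 else C (256*((i:ℤ)+1)^4) + C 4 * X)

lemma eval_PT (Q : ℕ) (U : ℤ) : (PT p Q).eval U = Pint p U Q := by
  unfold PT Pint
  rw [eval_prod]
  apply prod_congr rfl
  intro i _
  split_ifs <;> simp

/-- the prime-to-`p` part of the denominator -/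
noncomputable def Dp (K : ℕ) : ℤ[X] :=
  ∏ l ∈ range K, (if p ∣ (l+1) then 1 else C ((2*(l:ℤ)+2)^4) - X)

/-- the main polynomial -/
noncomputable def EE (k K Q : ℕ) : ℤ[X] :=
  PT p Q * Fp K + C ((p:ℤ) * 4^(K-k)) * FpS ((p:ℤ)^4) k * Dp p K

lemma eval_EE (hp : 1 ≤ p) (k K Q : ℕ) (hK : p*(2*k+1) = 2*K+1) (U : ℤ)
    (h1 : ∀ l : ℕ, (2*(l:ℤ)+2)^4 - U ≠ 0) :
    (((EE p k K Q).eval U : ℤ) : ℚ)
      = 4^K * (∏ l ∈ range K, ((2*(l:ℚ)+2)^4 - U)) *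
        ((Pint p U Q : ℚ) * TT U K + p * TT ((U:ℚ)/p^4) k) := by
  have hp0 : (p:ℤ)^4 ≠ 0 := pow_ne_zero _ (by exact_mod_cast (by omega : p ≠ 0))
  have h2 : ∀ l : ℕ, (2*(l:ℤ)+2)^4*((p:ℤ)^4) - U ≠ 0 := by
    intro l
    have := h1 (p*(l+1)-1)
    have h3 : 1 ≤ p*(l+1) := Nat.mul_pos hp (by omega)
    intro h0
    apply this
    rw [Nat.cast_sub h3]
    push_cast
    linear_combination h0
  have e1 := eval_FpS 1 U one_ne_zero K (by simpa using h1)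
  have e2 := eval_FpS ((p:ℤ)^4) U hp0 k h2
  rw [FpS_one] at e1
  have hkK : k ≤ K := by nlinarith
  have e3 := range_split (fun j => (2*(j:ℚ))^4 - U) p k K hp hK
  unfold EE
  rw [eval_add, eval_mul, eval_mul, eval_mul, eval_PT, eval_C]
  push_cast at e1 e2 ⊢
  rw [e1, e2]
  have e4 : (((Dp p K).eval U : ℤ) : ℚ)
      = ∏ l ∈ range K, (if p ∣ (l+1) then 1 else (2*((l+1:ℕ):ℚ))^4 - U) := by
    unfold Dp
    rw [eval_prod]
    push_cast
    apply prod_congr rfl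
    intro l _
    split_ifs
    · simp
    · simp only [eval_sub, eval_C, eval_X]
      push_cast
      ring
  have e5 : ∏ l ∈ range K, ((2*(l:ℚ)+2)^4 - U) = ∏ l ∈ range K, ((2*((l+1:ℕ):ℚ))^4 - U) := by
    apply prod_congr rfl
    intro l _
    push_cast; ring
  have e6 : ∏ l ∈ range k, ((2*((p*(l+1):ℕ):ℚ))^4 - U)
      = ∏ l ∈ range k, ((2*(l:ℚ)+2)^4*(p:ℚ)^4 - U) := by
    apply prod_congr rfl
    intro l _
    push_cast; ring
  have e7 : ∏ l ∈ range K, ((2*(l:ℚ)+2)^4*1 - (U:ℚ)) = ∏ l ∈ range K, ((2*(l:ℚ)+2)^4 - U) := by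
    simp
  rw [e4, e7, e5, e3, e6]
  have h4 : (4:ℚ)^K = 4^k * 4^(K-k) := by rw [← pow_add]; congr 1; omega
  rw [h4, div_one]
  ring

/-- truncation: odd fourth powers kill the tail -/
lemma TT_trunc (m K : ℕ) (h : m ≤ K) : TT ((2*(m:ℚ)+1)^4) K = TT ((2*(m:ℚ)+1)^4) m := by
  unfold TT
  symm
  apply sum_subset (range_subset_range.mpr (by omega))
  intro k _ hk
  have hk' : m < k := by simp at hk; omega
  have : ∏ j ∈ range k, (((2*(j:ℚ)+1)^4 - (2*(m:ℚ)+1)^4) / ((2*(j:ℚ)+2)^4 - (2*(m:ℚ)+1)^4)) = 0 := by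
    apply prod_eq_zero (i := m) (by simpa using hk')
    simp
  rw [this, mul_zero]

lemma node_ne (m l : ℕ) : (2*(l:ℤ)+2)^4 - (2*(m:ℤ)+1)^4 ≠ 0 := by
  intro h
  have h1 : (2*(l:ℤ)+2)^4 = 2*(8*((l:ℤ)+1)^4) := by ring
  have h2 : (2*(m:ℤ)+1)^4 = 2*(8*(m:ℤ)^4+16*m^3+12*m^2+4*m)+1 := by ring
  omega

variable [hp : Fact p.Prime]

theorem node_dvd (hp4 : p % 4 = 1) (k K Q T : ℕ) (hK : p*(2*k+1) = 2*K+1) (hT : 1 ≤ T)
    (hQ : p^T = 4*Q+1) (k' : ℕ) (hk' : k' ≤ k) :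
    ((p^T : ℕ) : ℤ) ∣ (EE p k K Q).eval (((p:ℤ)*(2*(k':ℤ)+1))^4) := by
  have hp1 : 1 ≤ p := hp.out.one_lt.le
  obtain ⟨K', hK'⟩ : ∃ K', p*(2*k'+1) = 2*K'+1 := by
    refine ⟨(p*(2*k'+1))/2, ?_⟩
    have : (p*(2*k'+1)) % 2 = 1 := by
      rw [Nat.mul_mod]
      have h1 : p % 2 = 1 := by omega
      have h2 : (2*k'+1) % 2 = 1 := by omega
      rw [h1, h2]
    omega
  have hK'K : K' ≤ K := by
    have : p*(2*k'+1) ≤ p*(2*k+1) := Nat.mul_le_mul_left _ (by omega)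
    omega
  have hVint : (p:ℤ)*(2*(k':ℤ)+1) = 2*(K':ℤ)+1 := by exact_mod_cast hK'
  have hVrat : (p:ℚ)*(2*(k':ℚ)+1) = 2*(K':ℚ)+1 := by exact_mod_cast hK'
  rw [hVint]
  have hE := eval_EE p hp1 k K Q hK ((2*(K':ℤ)+1)^4) (fun l => node_ne K' l)
  have hF := eval_FpS 1 ((2*(K':ℤ)+1)^4) one_ne_zero K
    (fun l => by rw [mul_one]; exact node_ne K' l)
  rw [FpS_one] at hF
  have hrel := ww_rel p k' K' hp4 hK'
  have hpV : (p:ℤ) ∣ (2*(K':ℤ)+1) := ⟨_, hVint.symm⟩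
  have hP := P_rel p hp4 K' hpV T hT Q hQ
  have t1 : TT ((((2*(K':ℤ)+1)^4 : ℤ)) : ℚ) K = ww K' := by
    push_cast
    rw [TT_trunc K' K hK'K, closed, ww]
  have hp0 : (p:ℚ) ≠ 0 := by exact_mod_cast (by omega : p ≠ 0)
  have t2 : TT (((((2*(K':ℤ)+1)^4 : ℤ)) : ℚ)/p^4) k = ww k' := by
    push_cast
    rw [← hVrat]
    have : ((p:ℚ)*(2*(k':ℚ)+1))^4/p^4 = (2*(k':ℚ)+1)^4 := by
      field_simp
    rw [this, TT_trunc k' k hk', closed, ww]
  have t3 : TT ((((2*(K':ℤ)+1)^4 : ℤ) : ℚ) / ((1:ℤ):ℚ)) K = ww K' := by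
    rw [← t1]; simp
  rw [t1, t2] at hE
  rw [t3] at hF
  set N' := rN (gV p (2*(K':ℤ)+1)) K'
  set D' := rD (gV p (2*(K':ℤ)+1)) K'
  have hid : (N':ℤ) * (EE p k K Q).eval ((2*(K':ℤ)+1)^4)
      = (Fp K).eval ((2*(K':ℤ)+1)^4) * (Pint p ((2*(K':ℤ)+1)^4) Q * N' + D') := by
    have : (((N':ℤ) * (EE p k K Q).eval ((2*(K':ℤ)+1)^4) : ℤ) : ℚ)
      = (((Fp K).eval ((2*(K':ℤ)+1)^4) * (Pint p ((2*(K':ℤ)+1)^4) Q * N' + D') : ℤ) : ℚ) := by
      rw [Int.cast_mul, Int.cast_mul, Int.cast_add, Int.cast_mul, hE, hF]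
      have e : ∏ l ∈ range K, ((2*(l:ℚ)+2)^4*((1:ℤ):ℚ) - ((((2*(K':ℤ)+1)^4 : ℤ)) : ℚ))
          = ∏ l ∈ range K, ((2*(l:ℚ)+2)^4 - ((((2*(K':ℤ)+1)^4 : ℤ)) : ℚ)) := by simp
      rw [e]
      linear_combination -(4^K * (∏ l ∈ range K, ((2*(l:ℚ)+2)^4 - ((((2*(K':ℤ)+1)^4 : ℤ)) : ℚ)))) * hrel
    exact_mod_cast this
  have hp' : Prime (p:ℤ) := Nat.prime_iff_prime_int.mp hp.out
  have hcop : IsCoprime ((p^T : ℕ) : ℤ) N' := by
    push_cast
    apply IsCoprime.pow_left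
    rw [hp'.irreducible.coprime_iff_not_dvd]
    intro hd
    obtain ⟨j, hj, hdj⟩ := (hp'.dvd_finsetProd_iff _).mp hd
    unfold gV at hdj
    by_cases hpj : p ∣ j
    · rw [if_pos hpj] at hdj
      exact hp'.not_dvd_one hdj
    · rw [if_neg hpj] at hdj
      have h1 : (p:ℤ) ∣ (2*(j:ℤ))^2 := by
        have h2 : (p:ℤ) ∣ (2*(K':ℤ)+1)^2 := Dvd.dvd.pow hpV (by norm_num)
        exact (dvd_add_left h2).mp hdj
      have h3 := hp'.dvd_of_dvd_pow h1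
      rcases hp'.dvd_or_dvd h3 with h | h
      · have h22 : p ∣ 2 := by exact_mod_cast h
        have := (Nat.prime_dvd_prime_iff_eq hp.out Nat.prime_two).mp h22
        omega
      · exact hpj (by exact_mod_cast h)
  apply hcop.dvd_of_dvd_mul_left
  rw [hid]
  exact Dvd.dvd.mul_left hP _

/-- content divisibility -/
lemma EE_content (k K Q r : ℕ) (hr : 1 ≤ r) (hN : 2*k+1 = p^(r-1)) (hn : 2*K+1 = p^r) :
    ∃ E0 : ℤ[X], EE p k K Q = C ((p:ℤ)^r) * E0 := by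
  have h1 : C ((p:ℤ)^r) ∣ Fp K := by
    rw [C_dvd_iff_dvd_coeff]
    intro i
    have := dvd_coeff_Fp K i
    have e : (2*(K:ℤ)+1) = (p:ℤ)^r := by exact_mod_cast hn
    rwa [e] at this
  have hp0 : (p:ℤ)^4 ≠ 0 := pow_ne_zero _ (by exact_mod_cast hp.out.ne_zero)
  have h2 : C ((p:ℤ)^(r-1)) ∣ FpS ((p:ℤ)^4) k := by
    rw [C_dvd_iff_dvd_coeff]
    intro i
    have := dvd_coeff_FpS ((p:ℤ)^4) hp0 k i
    have e : (2*(k:ℤ)+1) = (p:ℤ)^(r-1) := by exact_mod_cast hN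
    rwa [e] at this
  obtain ⟨A, hA⟩ := h1
  obtain ⟨B, hB⟩ := h2
  refine ⟨PT p Q * A + C (4^(K-k)) * B * Dp p K, ?_⟩
  unfold EE
  rw [hA, hB]
  have e : (C ((p:ℤ)^r) : ℤ[X]) = C (p:ℤ) * C ((p:ℤ)^(r-1)) := by
    rw [← C_mul, ← pow_succ']
    congr 2
    omega
  rw [e, C_mul]
  ring

end main

end Pool.Agent.Swisher
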