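import Pool.Agent.Swisher.Integrality

set_option autoImplicit false
set_option linter.unusedSectionVars false
set_option maxHeartbeats 4000000
set_option linter.unusedSimpArgs false

open Finset

namespace Pool.Agent.Swisher

section field

variable {F : Type*} [Field F] [CharZero F]

lemma AA_succ (x : F) (k : ℕ) :
    AA x (k+1) = AA x k * (((2*(k:F)+1)^2 - x) / ((2*(k:F)+2)^2 - x)) := by
  unfold AA
  rw [prod_range_succ]

lemma AA_zero (x : F) : AA x 0 = 1 := by simp [AA]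

/-- shift relation -/
lemma AA_shift (x : F) (h1 : ∀ l : ℕ, 2*(l:F)+2 - x ≠ 0) (h2 : ∀ l : ℕ, 2*(l:F)+2 + x ≠ 0)
    (h0 : x ≠ 0) (k : ℕ) :
    AA ((x+2)^2) (k+1) * (x * (2*(k:F)+4+x) * (2*(k:F)+2+x))
      = (x+2) * (2*(k:F)+3+x) * (2*(k:F)+1+x) * AA (x^2) k := by
  induction k with
  | zero =>
    have ha := h2 0
    have hb := h2 1
    have hd : (2*((0:ℕ):F)+2)^2 - (x+2)^2 ≠ 0 := by
      have : (2*((0:ℕ):F)+2)^2 - (x+2)^2 = -(x * (2*((1:ℕ):F)+2+x)) := by push_cast; ring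
      rw [this]
      exact neg_ne_zero.mpr (mul_ne_zero h0 hb)
    rw [AA_succ, AA_zero, AA_zero]
    have e1 : ((2*((0:ℕ):F)+1)^2 - (x+2)^2) / ((2*((0:ℕ):F)+2)^2 - (x+2)^2)
        = ((1+x)*(3+x)) / (x*(4+x)) := by
      rw [← neg_div_neg_eq]
      congr 1
      · push_cast; ring
      · push_cast; ring
    have hb' : 4 + x ≠ 0 := by
      have e : 4 + x = 2*((1:ℕ):F)+2+x := by push_cast; ring
      rw [e]; exact hb
    rw [e1]
    push_cast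
    field_simp
    ring
  | succ k ih =>
    rw [AA_succ ((x+2)^2) (k+1), AA_succ (x^2) k]
    have ha := h1 k
    have hb := h2 k
    have hc := h2 (k+1)
    have hc2 := h2 (k+2)
    have hd : (2*((k+1:ℕ):F)+2)^2 - (x+2)^2 ≠ 0 := by
      have : (2*((k+1:ℕ):F)+2)^2 - (x+2)^2
        = (2*(k:F)+2-x) * (2*((k+2:ℕ):F)+2+x) := by push_cast; ring
      rw [this]
      exact mul_ne_zero ha hc2
    have he : (2*(k:F)+2)^2 - x^2 ≠ 0 := by
      have : (2*(k:F)+2)^2 - x^2 = (2*(k:F)+2-x) * (2*(k:F)+2+x) := by ring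
      rw [this]
      exact mul_ne_zero ha hb
    have e1 : ((2*((k+1:ℕ):F)+1)^2 - (x+2)^2) / ((2*((k+1:ℕ):F)+2)^2 - (x+2)^2)
        = ((2*(k:F)+1-x) * (2*(k:F)+5+x)) / ((2*(k:F)+2-x) * (2*(k:F)+6+x)) := by
      congr 1
      · push_cast; ring
      · push_cast; ring
    have e2 : ((2*(k:F)+1)^2 - x^2) / ((2*(k:F)+2)^2 - x^2)
        = ((2*(k:F)+1-x) * (2*(k:F)+1+x)) / ((2*(k:F)+2-x) * (2*(k:F)+2+x)) := by
      congr 1
      · ring
      · ring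
    rw [e1, e2]
    have hc' : 2*(k:F)+4+x ≠ 0 := by
      have := hc; push_cast at this
      have e : 2*(k:F)+4+x = 2*((k:F)+1)+2+x := by ring
      rw [e]; exact this
    have hc2' : 2*(k:F)+6+x ≠ 0 := by
      have := hc2; push_cast at this
      have e : 2*(k:F)+6+x = 2*((k:F)+2)+2+x := by ring
      rw [e]; exact this
    push_cast
    set A1 := AA ((x+2)^2) (k+1)
    set A0 := AA (x^2) k
    rw [mul_div_assoc', mul_div_assoc', div_mul_eq_mul_div, mul_div_assoc']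
    rw [div_eq_div_iff (mul_ne_zero ha hc2') (mul_ne_zero ha hb)]
    linear_combination (2*(k:F)+1-x) * (2*(k:F)+5+x) * (2*(k:F)+6+x) * (2*(k:F)+2-x) * ih

lemma wz_alg_gen (n1 n2 n3 n4 C0 D1 D2 D3 D4 : F) (h1 : D1 ≠ 0) (h2 : D2 ≠ 0) (h3 : D3 ≠ 0)
    (h4 : D4 ≠ 0) (core : n1 * D1 + n2 * D2 = n3 + n4 * (D1 * D2)) :
    C0 * n1 / (D2 * D3 * D4) + C0 * n2 / (D1 * D3 * D4)
      = C0 * n3 / (D1 * D2 * D3 * D4) + C0 * n4 / (D3 * D4) := by
  field_simp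
  linear_combination C0 * core

lemma wz_alg (x y k Ax Ay B s : F) (h0 : x ≠ 0) (g0 : y ≠ 0) (hx2 : x + 2 ≠ 0) (hy2 : y + 2 ≠ 0)
    (hK : 2*k+2 ≠ 0) (a1 : 2*k+2-x ≠ 0) (a2 : 2*k+2+x ≠ 0) (a3 : 2*k+4+x ≠ 0)
    (b1 : 2*k+2-y ≠ 0) (b2 : 2*k+2+y ≠ 0) (b3 : 2*k+4+y ≠ 0) :
    x*y*(3+x+y)/((x+2)*(y+2)) * (s * -1 * (4*(k+1)+1) * (B * (2*k+1) / (2*k+2)) *
        ((x+2) * (2*k+3+x) * (2*k+1+x) * Ax / (x * (2*k+4+x) * (2*k+2+x)) *
          ((y+2) * (2*k+3+y) * (2*k+1+y) * Ay / (y * (2*k+4+y) * (2*k+2+y)))))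
      + (1+x+y) * (s * -1 * (4*(k+1)+1) * (B * (2*k+1) / (2*k+2)) *
        (Ax * ((2*k+1-x) * (2*k+1+x) / ((2*k+2-x) * (2*k+2+x))) *
          (Ay * ((2*k+1-y) * (2*k+1+y) / ((2*k+2-y) * (2*k+2+y))))))
      = 2*(2+x+y)*(s * -1)*(2*(k+1)+1)*(B * (2*k+1) / (2*k+2))*
        (Ax * ((2*k+1-x) * (2*k+1+x) / ((2*k+2-x) * (2*k+2+x))) *
          (Ay * ((2*k+1-y) * (2*k+1+y) / ((2*k+2-y) * (2*k+2+y)))))
      * ((2*(k+1)+1+x)*(2*(k+1)+1+y)) / ((2*k+4+x)*(2*k+4+y))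
      - 2*(2+x+y)*s*(2*k+1)*B*(Ax * Ay) * ((2*k+1+x)*(2*k+1+y)) / ((2*k+2+x)*(2*k+2+y)) := by
  have core := wz_alg_gen ((4*k+5)*(3+x+y)*(2*k+3+x)*(2*k+3+y))
    ((1+x+y)*(4*k+5)*(2*k+1-x)*(2*k+1-y))
    (2*(2+x+y)*(2*k+3)*(2*k+1-x)*(2*k+1-y)*(2*k+3+x)*(2*k+3+y))
    (2*(2+x+y)*(2*k+2)) (-(s*B*Ax*Ay*(2*k+1)*(2*k+1+x)*(2*k+1+y)))
    ((2*k+2-x)*(2*k+2-y)) ((2*k+4+x)*(2*k+4+y)) ((2*k+2+x)*(2*k+2+y)) (2*k+2)
    (mul_ne_zero a1 b1) (mul_ne_zero a3 b3) (mul_ne_zero a2 b2) hK (by ring)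
  have t1 : x*y*(3+x+y)/((x+2)*(y+2)) * (s * -1 * (4*(k+1)+1) * (B * (2*k+1) / (2*k+2)) *
        ((x+2) * (2*k+3+x) * (2*k+1+x) * Ax / (x * (2*k+4+x) * (2*k+2+x)) *
          ((y+2) * (2*k+3+y) * (2*k+1+y) * Ay / (y * (2*k+4+y) * (2*k+2+y)))))
      = -(s*B*Ax*Ay*(2*k+1)*(2*k+1+x)*(2*k+1+y)) * ((4*k+5)*(3+x+y)*(2*k+3+x)*(2*k+3+y)) /
        (((2*k+4+x)*(2*k+4+y)) * ((2*k+2+x)*(2*k+2+y)) * (2*k+2)) := by
    have e : (4*(k+1)+1) = 4*k+5 := by ring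
    rw [e]
    generalize 2*k+2+x = X2 at *
    generalize 2*k+2+y = Y2 at *
    generalize 2*k+4+x = X3 at *
    generalize 2*k+4+y = Y3 at *
    generalize 2*k+2 = D4 at *
    generalize 2*k+3+x = u1 at *
    generalize 2*k+3+y = u2 at *
    generalize 2*k+1+x = u3 at *
    generalize 2*k+1+y = u4 at *
    generalize x+2 = x2 at *
    generalize y+2 = y2 at *
    generalize 3+x+y = u5 at *
    simp only [div_mul_div_comm, mul_div_assoc', div_mul_eq_mul_div, div_div, ← neg_div]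
    rw [div_eq_div_iff (by repeat' first | apply mul_ne_zero | assumption)
      (by repeat' first | apply mul_ne_zero | assumption)]
    ring
  have t2 : (1+x+y) * (s * -1 * (4*(k+1)+1) * (B * (2*k+1) / (2*k+2)) *
        (Ax * ((2*k+1-x) * (2*k+1+x) / ((2*k+2-x) * (2*k+2+x))) *
          (Ay * ((2*k+1-y) * (2*k+1+y) / ((2*k+2-y) * (2*k+2+y))))))
      = -(s*B*Ax*Ay*(2*k+1)*(2*k+1+x)*(2*k+1+y)) * ((1+x+y)*(4*k+5)*(2*k+1-x)*(2*k+1-y)) /
        (((2*k+2-x)*(2*k+2-y)) * ((2*k+2+x)*(2*k+2+y)) * (2*k+2)) := by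
    have e : (4*(k+1)+1) = 4*k+5 := by ring
    rw [e]
    generalize 2*k+2+x = X2 at *
    generalize 2*k+2+y = Y2 at *
    generalize 2*k+2-x = X1 at *
    generalize 2*k+2-y = Y1 at *
    generalize 2*k+2 = D4 at *
    generalize 2*k+1-x = u1 at *
    generalize 2*k+1-y = u2 at *
    generalize 2*k+1+x = u3 at *
    generalize 2*k+1+y = u4 at *
    generalize 1+x+y = u5 at *
    simp only [div_mul_div_comm, mul_div_assoc', div_mul_eq_mul_div, div_div, ← neg_div]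
    rw [div_eq_div_iff (by repeat' first | apply mul_ne_zero | assumption)
      (by repeat' first | apply mul_ne_zero | assumption)]
    ring
  have t3 : 2*(2+x+y)*(s * -1)*(2*(k+1)+1)*(B * (2*k+1) / (2*k+2))*
        (Ax * ((2*k+1-x) * (2*k+1+x) / ((2*k+2-x) * (2*k+2+x))) *
          (Ay * ((2*k+1-y) * (2*k+1+y) / ((2*k+2-y) * (2*k+2+y)))))
      * ((2*(k+1)+1+x)*(2*(k+1)+1+y)) / ((2*k+4+x)*(2*k+4+y))
      = -(s*B*Ax*Ay*(2*k+1)*(2*k+1+x)*(2*k+1+y))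
        * (2*(2+x+y)*(2*k+3)*(2*k+1-x)*(2*k+1-y)*(2*k+3+x)*(2*k+3+y)) /
        (((2*k+2-x)*(2*k+2-y)) * ((2*k+4+x)*(2*k+4+y)) * ((2*k+2+x)*(2*k+2+y)) * (2*k+2)) := by
    have e1 : (2*(k+1)+1) = 2*k+3 := by ring
    rw [e1]
    generalize 2*k+2+x = X2 at *
    generalize 2*k+2+y = Y2 at *
    generalize 2*k+2-x = X1 at *
    generalize 2*k+2-y = Y1 at *
    generalize 2*k+4+x = X3 at *
    generalize 2*k+4+y = Y3 at *
    generalize 2*k+2 = D4 at *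
    generalize 2*k+1-x = u1 at *
    generalize 2*k+1-y = u2 at *
    generalize 2*k+1+x = u3 at *
    generalize 2*k+1+y = u4 at *
    generalize 2*k+3+x = u6 at *
    generalize 2*k+3+y = u7 at *
    generalize 2+x+y = u5 at *
    simp only [div_mul_div_comm, mul_div_assoc', div_mul_eq_mul_div, div_div, ← neg_div]
    rw [div_eq_div_iff (by repeat' first | apply mul_ne_zero | assumption)
      (by repeat' first | apply mul_ne_zero | assumption)]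
    ring
  have t4 : 2*(2+x+y)*s*(2*k+1)*B*(Ax * Ay) * ((2*k+1+x)*(2*k+1+y)) / ((2*k+2+x)*(2*k+2+y))
      = - (-(s*B*Ax*Ay*(2*k+1)*(2*k+1+x)*(2*k+1+y)) * (2*(2+x+y)*(2*k+2)) /
        (((2*k+2+x)*(2*k+2+y)) * (2*k+2))) := by
    generalize 2*k+2+x = X2 at *
    generalize 2*k+2+y = Y2 at *
    generalize 2*k+2 = D4 at *
    generalize 2*k+1+x = u3 at *
    generalize 2*k+1+y = u4 at *
    generalize 2+x+y = u5 at *
    simp only [div_mul_div_comm, mul_div_assoc', div_mul_eq_mul_div, div_div, ← neg_div]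
    rw [div_eq_div_iff (by repeat' first | apply mul_ne_zero | assumption)
      (by repeat' first | apply mul_ne_zero | assumption)]
    ring
  rw [t1, t2, t3, t4, sub_neg_eq_add]
  exact core

/-- the summand -/
def ff (x y : F) (k : ℕ) : F := (-1)^k * (4*(k:F)+1) * beta F k * (AA (x^2) k * AA (y^2) k)

/-- the two-parameter telescoping identity for partial sums -/
lemma wz_partial (x y : F) (h1 : ∀ l : ℕ, 2*(l:F)+2 - x ≠ 0) (h2 : ∀ l : ℕ, 2*(l:F)+2 + x ≠ 0)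
    (h0 : x ≠ 0) (g1 : ∀ l : ℕ, 2*(l:F)+2 - y ≠ 0) (g2 : ∀ l : ℕ, 2*(l:F)+2 + y ≠ 0)
    (g0 : y ≠ 0) (K : ℕ) :
    x*y*(3+x+y)/((x+2)*(y+2)) * ∑ k ∈ range (K+1), ff (x+2) (y+2) k
      + (1+x+y) * ∑ k ∈ range (K+1), ff x y k
    = 2*(2+x+y)*(-1)^K*(2*(K:F)+1)*beta F K*(AA (x^2) K * AA (y^2) K)
      * ((2*(K:F)+1+x)*(2*(K:F)+1+y)) / ((2*(K:F)+2+x)*(2*(K:F)+2+y)) := by
  have hx2 : x + 2 ≠ 0 := by
    have := h2 0; simp at this; rwa [add_comm] at this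
  have hy2 : y + 2 ≠ 0 := by
    have := g2 0; simp at this; rwa [add_comm] at this
  induction K with
  | zero =>
    have ha := h2 0
    have hb := g2 0
    simp only [zero_add, range_one, sum_singleton, ff, AA_zero, beta, cb_zero, pow_zero,
      Nat.cast_zero, mul_zero, one_mul, mul_one, div_one]
    rw [div_add' _ _ _ (mul_ne_zero hx2 hy2), div_eq_div_iff (mul_ne_zero hx2 hy2)
      (mul_ne_zero (by simpa using ha) (by simpa using hb))]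
    ring
  | succ K ih =>
    rw [sum_range_succ, sum_range_succ _ (K+1)]
    suffices hkey : x*y*(3+x+y)/((x+2)*(y+2)) * ff (x+2) (y+2) (K+1)
      + (1+x+y) * ff x y (K+1)
      = 2*(2+x+y)*(-1)^(K+1)*(2*((K+1:ℕ):F)+1)*beta F (K+1)*(AA (x^2) (K+1) * AA (y^2) (K+1))
      * ((2*((K+1:ℕ):F)+1+x)*(2*((K+1:ℕ):F)+1+y)) / ((2*((K+1:ℕ):F)+2+x)*(2*((K+1:ℕ):F)+2+y))
      - 2*(2+x+y)*(-1)^K*(2*(K:F)+1)*beta F K*(AA (x^2) K * AA (y^2) K)
      * ((2*(K:F)+1+x)*(2*(K:F)+1+y)) / ((2*(K:F)+2+x)*(2*(K:F)+2+y)) by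
      linear_combination ih + hkey
    have ex := AA_shift x h1 h2 h0 K
    have ey := AA_shift y g1 g2 g0 K
    have hb := beta_succ (F := F) K
    have a1 := h1 K
    have a2 := h2 K
    have a3 : 2*(K:F)+4+x ≠ 0 := by
      have := h2 (K+1); push_cast at this
      have e : 2*(K:F)+4+x = 2*((K:F)+1)+2+x := by ring
      rw [e]; exact this
    have b1 := g1 K
    have b2 := g2 K
    have b3 : 2*(K:F)+4+y ≠ 0 := by
      have := g2 (K+1); push_cast at this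
      have e : 2*(K:F)+4+y = 2*((K:F)+1)+2+y := by ring
      rw [e]; exact this
    have hK : 2*(K:F)+2 ≠ 0 := by
      have : ((2*K+2 : ℕ) : F) ≠ 0 := by exact_mod_cast (by omega : 2*K+2 ≠ 0)
      push_cast at this; exact this
    have ex' : AA ((x+2)^2) (K+1) = (x+2) * (2*(K:F)+3+x) * (2*(K:F)+1+x) * AA (x^2) K
        / (x * (2*(K:F)+4+x) * (2*(K:F)+2+x)) := by
      rw [eq_div_iff (mul_ne_zero (mul_ne_zero h0 a3) a2)]; exact ex
    have ey' : AA ((y+2)^2) (K+1) = (y+2) * (2*(K:F)+3+y) * (2*(K:F)+1+y) * AA (y^2) K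
        / (y * (2*(K:F)+4+y) * (2*(K:F)+2+y)) := by
      rw [eq_div_iff (mul_ne_zero (mul_ne_zero g0 b3) b2)]; exact ey
    have hb' : beta F (K+1) = beta F K * (2*(K:F)+1) / (2*(K:F)+2) := by
      rw [eq_div_iff hK]; exact hb
    unfold ff
    rw [AA_succ (x^2) K, AA_succ (y^2) K, ex', ey', hb']
    have e2 : ((2*(K:F)+1)^2 - x^2) / ((2*(K:F)+2)^2 - x^2)
        = ((2*(K:F)+1-x) * (2*(K:F)+1+x)) / ((2*(K:F)+2-x) * (2*(K:F)+2+x)) := by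
      congr 1
      · ring
      · ring
    have e3 : ((2*(K:F)+1)^2 - y^2) / ((2*(K:F)+2)^2 - y^2)
        = ((2*(K:F)+1-y) * (2*(K:F)+1+y)) / ((2*(K:F)+2-y) * (2*(K:F)+2+y)) := by
      congr 1
      · ring
      · ring
    rw [e2, e3]
    have a4 : 2*((K+1:ℕ):F)+2+x ≠ 0 := h2 (K+1)
    have b4 : 2*((K+1:ℕ):F)+2+y ≠ 0 := g2 (K+1)
    have a5 : 2*((K+1:ℕ):F)+2+x = 2*(K:F)+4+x := by push_cast; ring
    have b5 : 2*((K+1:ℕ):F)+2+y = 2*(K:F)+4+y := by push_cast; ring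
    rw [a5, b5]
    push_cast
    rw [pow_succ]
    set Ax := AA (x^2) K
    set Ay := AA (y^2) K
    set B := beta F K
    set s : F := (-1)^K
    clear_value Ax Ay B s
    generalize hk : (K:F) = k at *
    clear ih ex ey hb ex' ey' hb' a4 b4 a5 b5 e2 e3 hk
    exact wz_alg x y k Ax Ay B s h0 g0 hx2 hy2 hK a1 a2 a3 b1 b2 b3

/-- the closed form -/
def om (Y : F) : ℕ → F
  | 0 => 1
  | 1 => Y / (4 - Y)
  | (K+2) => om Y K * (((2*(K:F)+2)^2 - Y) / ((2*(K:F)+4)^2 - Y))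

lemma om_zero (Y : F) : om Y 0 = 1 := rfl
lemma om_one (Y : F) : om Y 1 = Y / (4 - Y) := rfl
lemma om_add_two (Y : F) (K : ℕ) :
    om Y (K+2) = om Y K * (((2*(K:F)+2)^2 - Y) / ((2*(K:F)+4)^2 - Y)) := rfl

lemma om_shift (y : F) (g1 : ∀ l : ℕ, 2*(l:F)+2 - y ≠ 0) (g2 : ∀ l : ℕ, 2*(l:F)+2 + y ≠ 0)
    (g0 : y ≠ 0) (K : ℕ) :
    om ((y+2)^2) (K+1) * (y * (2*(K:F)+4+y)) = -((y+2) * (2*(K:F)+2+y)) * om (y^2) K := by
  induction K using Nat.twoStepInduction with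
  | zero =>
    have a1 := g2 0
    have a2 := g2 1
    simp only [zero_add, om_one, om_zero, Nat.cast_zero, mul_zero, mul_one]
    have hd : 4 - (y+2)^2 = -(y * (4+y)) := by ring
    have h4 : 4 + y ≠ 0 := by
      have e : 4 + y = 2*((1:ℕ):F)+2+y := by push_cast; ring
      rw [e]; exact a2
    rw [hd, div_neg, neg_mul, div_mul_cancel₀ _ (mul_ne_zero g0 h4)]
    ring
  | one =>
    have a1 := g2 0
    have a2 := g2 1
    have a3 := g2 2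
    have b1 := g1 0
    have h4 : 4 + y ≠ 0 := by
      have e : 4 + y = 2*((1:ℕ):F)+2+y := by push_cast; ring
      rw [e]; exact a2
    have h6 : 6 + y ≠ 0 := by
      have e : 6 + y = 2*((2:ℕ):F)+2+y := by push_cast; ring
      rw [e]; exact a3
    have h2 : 2 - y ≠ 0 := by simpa using b1
    have h2' : 2 + y ≠ 0 := by simpa using a1
    rw [om_add_two, om_zero, om_one]
    have hd : (2*((0:ℕ):F)+4)^2 - (y+2)^2 = (2-y)*(6+y) := by push_cast; ring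
    have hn : (2*((0:ℕ):F)+2)^2 - (y+2)^2 = -(y*(4+y)) := by push_cast; ring
    have hd2 : 4 - y^2 = (2-y)*(2+y) := by ring
    rw [hd, hn, hd2, one_mul, div_mul_eq_mul_div, mul_div_assoc',
      div_eq_div_iff (mul_ne_zero h2 h6) (mul_ne_zero h2 h2')]
    push_cast
    ring
  | more K ih _ =>
    have e1 : K + 2 + 1 = (K+1) + 2 := by ring
    rw [e1, om_add_two, om_add_two]
    have b1 := g1 K
    have b2 := g1 (K+1)
    have a1 := g2 K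
    have a2 := g2 (K+1)
    have a3 := g2 (K+2)
    have a4 := g2 (K+3)
    have h4 : 2*(K:F)+4-y ≠ 0 := by
      have e : 2*(K:F)+4-y = 2*((K+1:ℕ):F)+2-y := by push_cast; ring
      rw [e]; exact b2
    have h4' : 2*(K:F)+4+y ≠ 0 := by
      have e : 2*(K:F)+4+y = 2*((K+1:ℕ):F)+2+y := by push_cast; ring
      rw [e]; exact a2
    have h8 : 2*(K:F)+8+y ≠ 0 := by
      have e : 2*(K:F)+8+y = 2*((K+3:ℕ):F)+2+y := by push_cast; ring
      rw [e]; exact a4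
    have hd : (2*((K+1:ℕ):F)+4)^2 - (y+2)^2 = (2*(K:F)+4-y)*(2*(K:F)+8+y) := by push_cast; ring
    have hn : (2*((K+1:ℕ):F)+2)^2 - (y+2)^2 = (2*(K:F)+2-y)*(2*(K:F)+6+y) := by push_cast; ring
    have hd2 : (2*(K:F)+4)^2 - y^2 = (2*(K:F)+4-y)*(2*(K:F)+4+y) := by ring
    rw [hd, hn, hd2, mul_div_assoc', mul_div_assoc', div_mul_eq_mul_div, mul_div_assoc',
      div_eq_div_iff (mul_ne_zero h4 h8) (mul_ne_zero h4 h4')]
    push_cast
    linear_combination (2*(K:F)+4-y) * (2*(K:F)+2-y) * (2*(K:F)+6+y) * (2*(K:F)+8+y) * ih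

end field

/-- sums over the complex numbers -/
lemma cx_ne (y : ℂ) (hy : y.im ≠ 0) (a : ℂ) (ha : a.im = 0) : a - y ≠ 0 := by
  intro h
  apply hy
  have := congrArg Complex.im h
  simp [ha] at this
  exact this

lemma cx_ne' (y : ℂ) (hy : y.im ≠ 0) (a : ℂ) (ha : a.im = 0) : a + y ≠ 0 := by
  intro h
  apply hy
  have := congrArg Complex.im h
  simp [ha] at this
  exact this

lemma AA_nat_zero {F : Type*} [Field F] [CharZero F] (m k : ℕ) (h : m < k) :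
    AA ((2*(m:F)+1)^2) k = 0 := by
  unfold AA
  apply prod_eq_zero (i := m) (by simpa using h)
  simp

lemma closed_cx (m : ℕ) : ∀ y : ℂ, y.im ≠ 0 →
    ∑ k ∈ range (m+1), ff (2*(m:ℂ)+1) y k = (2*(m:ℂ)+1) * om (y^2) m := by
  induction m with
  | zero =>
    intro y _
    simp [ff, AA_zero, beta, cb_zero, om_zero]
  | succ m ih =>
    intro z hz
    obtain ⟨y, rfl⟩ : ∃ y : ℂ, z = y + 2 := ⟨z - 2, by ring⟩
    have hy : y.im ≠ 0 := by simpa using hz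
    have h := ih y hy
    have g1 : ∀ l : ℕ, 2*(l:ℂ)+2 - y ≠ 0 := fun l => cx_ne y hy _ (by simp)
    have g2 : ∀ l : ℕ, 2*(l:ℂ)+2 + y ≠ 0 := fun l => cx_ne' y hy _ (by simp)
    have g0 : y ≠ 0 := by intro h0; apply hy; simp [h0]
    have h1 : ∀ l : ℕ, 2*(l:ℂ)+2 - (2*(m:ℂ)+1) ≠ 0 := by
      intro l h0
      have : (2*(l:ℤ)+2 - (2*(m:ℤ)+1) : ℤ) = 0 := by exact_mod_cast h0
      omega
    have h2 : ∀ l : ℕ, 2*(l:ℂ)+2 + (2*(m:ℂ)+1) ≠ 0 := by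
      intro l h0
      have : (2*(l:ℤ)+2 + (2*(m:ℤ)+1) : ℤ) = 0 := by exact_mod_cast h0
      omega
    have h0 : (2*(m:ℂ)+1) ≠ 0 := by
      intro h0
      have : (2*(m:ℤ)+1 : ℤ) = 0 := by exact_mod_cast h0
      omega
    have w := wz_partial (2*(m:ℂ)+1) y h1 h2 h0 g1 g2 g0 (m+1)
    rw [AA_nat_zero m (m+1) (Nat.lt_succ_self m)] at w
    have e1 : ∑ k ∈ range (m+1+1), ff (2*(m:ℂ)+1) y k = ∑ k ∈ range (m+1), ff (2*(m:ℂ)+1) y k := by
      rw [sum_range_succ]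
      have : ff (2*(m:ℂ)+1) y (m+1) = 0 := by
        unfold ff
        rw [AA_nat_zero m (m+1) (Nat.lt_succ_self m)]
        ring
      rw [this, add_zero]
    rw [e1, h] at w
    have e2 : (2*(m:ℂ)+1+2) = 2*((m+1:ℕ):ℂ)+1 := by push_cast; ring
    rw [e2] at w
    have ho := om_shift y g1 g2 g0 m
    set S := ∑ k ∈ range (m+1+1), ff (2*((m+1:ℕ):ℂ)+1) (y+2) k
    have hy2 : y + 2 ≠ 0 := by
      have := g2 0; simp at this; rwa [add_comm] at this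
    have hx2 : 2*((m+1:ℕ):ℂ)+1 ≠ 0 := by
      intro h0
      have : (2*((m+1:ℕ):ℤ)+1 : ℤ) = 0 := by exact_mod_cast h0
      omega
    have hm4 : 2*(m:ℂ)+4+y ≠ 0 := by
      have := g2 (m+1); push_cast at this
      have e : 2*(m:ℂ)+4+y = 2*((m:ℂ)+1)+2+y := by ring
      rw [e]; exact this
    have w' : (2*(m:ℂ)+1)*y*(2*(m:ℂ)+4+y) * S
        = -(2*(m:ℂ)+2+y) * ((2*(m:ℂ)+1) * om (y^2) m) * ((2*((m+1:ℕ):ℂ)+1)*(y+2)) := by
      have e3 : (3 + (2*(m:ℂ)+1) + y) = 2*(m:ℂ)+4+y := by ring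
      have e4 : (1 + (2*(m:ℂ)+1) + y) = 2*(m:ℂ)+2+y := by ring
      rw [e3, e4] at w
      have hz2 : (2*((m+1:ℕ):ℂ)+1)*(y+2) ≠ 0 := mul_ne_zero hx2 hy2
      have w2 : (2*(m:ℂ)+1)*y*(2*(m:ℂ)+4+y) / ((2*((m+1:ℕ):ℂ)+1)*(y+2)) * S
          = -(2*(m:ℂ)+2+y) * ((2*(m:ℂ)+1) * om (y^2) m) := by
        have w0 : (2*(m:ℂ)+1)*y*(2*(m:ℂ)+4+y) / ((2*((m+1:ℕ):ℂ)+1)*(y+2)) * S
          + (2*(m:ℂ)+2+y) * ((2*(m:ℂ)+1) * om (y^2) m) = 0 := by rw [w]; simp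
        linear_combination w0
      rw [div_mul_eq_mul_div, div_eq_iff hz2] at w2
      exact w2
    have hcan : (2*(m:ℂ)+1)*y*(2*(m:ℂ)+4+y) ≠ 0 := mul_ne_zero (mul_ne_zero h0 g0) hm4
    apply mul_left_cancel₀ hcan
    rw [w']
    linear_combination -(2*(m:ℂ)+1) * (2*((m+1:ℕ):ℂ)+1) * ho

lemma om_cast (Y : ℚ) (K : ℕ) : ((om Y K : ℚ) : ℂ) = om (Y : ℂ) K := by
  induction K using Nat.twoStepInduction with
  | zero => simp [om_zero]
  | one => simp [om_one]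
  | more K ih _ =>
    rw [om_add_two, om_add_two, ← ih]
    push_cast
    rfl

/-- `T_K(U)` as a function -/
def TT (U : ℚ) (K : ℕ) : ℚ :=
  ∑ k ∈ range (K+1), (-1)^k * (4*(k:ℚ)+1) * beta ℚ k *
    ∏ j ∈ range k, (((2*(j:ℚ)+1)^4 - U) / ((2*(j:ℚ)+2)^4 - U))

theorem closed (m : ℕ) :
    TT ((2*(m:ℚ)+1)^4) m = (2*(m:ℚ)+1) * om (-(2*(m:ℚ)+1)^2) m := by
  have him : (Complex.I * (2*(m:ℂ)+1)).im ≠ 0 := by
    simp
    have : (0:ℝ) < 2*(m:ℝ)+1 := by positivity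
    exact this.ne'
  have h := closed_cx m (Complex.I * (2*(m:ℂ)+1)) him
  have e1 : (Complex.I * (2*(m:ℂ)+1))^2 = ((-(2*(m:ℚ)+1)^2 : ℚ) : ℂ) := by
    push_cast
    rw [mul_pow, Complex.I_sq]
    ring
  rw [e1, ← om_cast] at h
  have e2 : ∑ k ∈ range (m+1), ff (2*(m:ℂ)+1) (Complex.I * (2*(m:ℂ)+1)) k
      = ((TT ((2*(m:ℚ)+1)^4) m : ℚ) : ℂ) := by
    unfold TT
    push_cast
    apply sum_congr rfl
    intro k _
    unfold ff
    congr 1
    · unfold beta cb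
      push_cast
      rfl
    · unfold AA
      rw [← prod_mul_distrib]
      apply prod_congr rfl
      intro j _
      rw [e1, div_mul_div_comm]
      push_cast
      congr 1
      · ring
      · ring
  rw [e2] at h
  exact_mod_cast h

end Pool.Agent.Swisher
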