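import Pool.Agent.Swisher.WilsonArith

set_option autoImplicit false
set_option linter.unusedSectionVars false

open Finset Filter Topology

namespace Pool.Agent.Swisher

variable (p : ℕ) [hp : Fact p.Prime]

/-- the values of Morita's function at natural numbers, as integers -/
def mg (n : ℕ) : ℤ := (-1)^n * ∏ j ∈ (Ico 1 n).filter (fun j => ¬ p ∣ j), (j : ℤ)

/-- general extension principle -/
lemma extend_exists (f : ℕ → ℤ)
    (hf : ∀ k m n : ℕ, ((p:ℤ)^k ∣ (m:ℤ) - n) → ((p:ℤ)^k ∣ f m - f n)) :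
    ∃ G : ℤ_[p] → ℤ_[p], Continuous G ∧ ∀ n : ℕ, G n = ((f n : ℤ) : ℤ_[p]) := by
  have hp1 : (1:ℝ) < p := by exact_mod_cast hp.out.one_lt
  have hpp : (0:ℝ) < p := by linarith
  -- step estimate
  have happr : ∀ (x : ℤ_[p]) (k : ℕ), ‖x - (x.appr k : ℤ_[p])‖ ≤ (p:ℝ)^(-(k:ℤ)) := by
    intro x k
    rw [PadicInt.norm_le_pow_iff_mem_span_pow]
    exact PadicInt.appr_spec k x
  have hnat : ∀ (k m n : ℕ), ‖(m : ℤ_[p]) - (n : ℤ_[p])‖ ≤ (p:ℝ)^(-(k:ℤ)) →
      ‖((f m : ℤ) : ℤ_[p]) - ((f n : ℤ) : ℤ_[p])‖ ≤ (p:ℝ)^(-(k:ℤ)) := by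
    intro k m n h
    have h1 : ‖(((m:ℤ) - n : ℤ) : ℤ_[p])‖ ≤ (p:ℝ)^(-(k:ℤ)) := by
      push_cast; exact h
    rw [PadicInt.norm_int_le_pow_iff_dvd] at h1
    have h2 := hf k m n h1
    rw [← PadicInt.norm_int_le_pow_iff_dvd (p := p)] at h2
    push_cast at h2
    exact h2
  have hclose : ∀ (x : ℤ_[p]) (k : ℕ),
      ‖((x.appr k : ℕ) : ℤ_[p]) - ((x.appr (k+1) : ℕ) : ℤ_[p])‖ ≤ (p:ℝ)^(-(k:ℤ)) := by
    intro x k
    have h1 := happr x k
    have h2 := happr x (k+1)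
    have h3 : (p:ℝ)^(-((k+1:ℕ):ℤ)) ≤ (p:ℝ)^(-(k:ℤ)) := by
      apply zpow_le_zpow_right₀ hp1.le
      push_cast; omega
    have e : ((x.appr k : ℕ) : ℤ_[p]) - ((x.appr (k+1) : ℕ) : ℤ_[p])
        = (x - ((x.appr (k+1) : ℕ) : ℤ_[p])) + -(x - ((x.appr k : ℕ) : ℤ_[p])) := by ring
    rw [e]
    refine (PadicInt.nonarchimedean _ _).trans ?_
    rw [norm_neg]
    exact max_le (h2.trans h3) h1
  have hcau : ∀ x : ℤ_[p], ∃ y : ℤ_[p],
      Tendsto (fun k => ((f (x.appr k) : ℤ) : ℤ_[p])) atTop (𝓝 y) := by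
    intro x
    apply cauchySeq_tendsto_of_complete
    apply cauchySeq_of_le_geometric ((p:ℝ)⁻¹) 1 (inv_lt_one_of_one_lt₀ hp1)
    intro n
    rw [dist_eq_norm, one_mul]
    have := hnat n _ _ (hclose x n)
    rw [zpow_neg, zpow_natCast, ← inv_pow] at this
    exact this
  choose G hG using hcau
  have hstep : ∀ (x : ℤ_[p]) (k l : ℕ), k ≤ l →
      ‖((x.appr l : ℕ) : ℤ_[p]) - ((x.appr k : ℕ) : ℤ_[p])‖ ≤ (p:ℝ)^(-(k:ℤ)) := by
    intro x k l hkl
    have h1 := happr x k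
    have h2 := happr x l
    have h3 : (p:ℝ)^(-(l:ℤ)) ≤ (p:ℝ)^(-(k:ℤ)) := by
      apply zpow_le_zpow_right₀ hp1.le
      omega
    have e : ((x.appr l : ℕ) : ℤ_[p]) - ((x.appr k : ℕ) : ℤ_[p])
        = (x - ((x.appr k : ℕ) : ℤ_[p])) + -(x - ((x.appr l : ℕ) : ℤ_[p])) := by ring
    rw [e]
    refine (PadicInt.nonarchimedean _ _).trans ?_
    rw [norm_neg]
    exact max_le h1 (h2.trans h3)
  have hGk : ∀ (x : ℤ_[p]) (k : ℕ), ‖G x - ((f (x.appr k) : ℤ) : ℤ_[p])‖ ≤ (p:ℝ)^(-(k:ℤ)) := by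
    intro x k
    have h1 : Tendsto (fun l => ‖((f (x.appr l) : ℤ) : ℤ_[p]) - ((f (x.appr k) : ℤ) : ℤ_[p])‖)
        atTop (𝓝 ‖G x - ((f (x.appr k) : ℤ) : ℤ_[p])‖) :=
      ((hG x).sub_const _).norm
    apply le_of_tendsto h1
    filter_upwards [eventually_ge_atTop k] with l hl
    exact hnat k _ _ (hstep x k l hl)
  have hlip : ∀ (x y : ℤ_[p]) (k : ℕ), ‖x - y‖ ≤ (p:ℝ)^(-(k:ℤ)) →
      ‖G x - G y‖ ≤ (p:ℝ)^(-(k:ℤ)) := by
    intro x y k h
    have h1 : ‖((x.appr k : ℕ) : ℤ_[p]) - ((y.appr k : ℕ) : ℤ_[p])‖ ≤ (p:ℝ)^(-(k:ℤ)) := by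
      have e : ((x.appr k : ℕ) : ℤ_[p]) - ((y.appr k : ℕ) : ℤ_[p])
          = (-(x - ((x.appr k : ℕ) : ℤ_[p])) + (y - ((y.appr k : ℕ) : ℤ_[p]))) + (x - y) := by ring
      rw [e]
      refine (PadicInt.nonarchimedean _ _).trans (max_le ?_ h)
      refine (PadicInt.nonarchimedean _ _).trans ?_
      rw [norm_neg]
      exact max_le (happr x k) (happr y k)
    have h2 := hnat k _ _ h1
    have e : G x - G y = ((G x - ((f (x.appr k) : ℤ) : ℤ_[p])) + -(G y - ((f (y.appr k) : ℤ) : ℤ_[p])))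
        + (((f (x.appr k) : ℤ) : ℤ_[p]) - ((f (y.appr k) : ℤ) : ℤ_[p])) := by ring
    rw [e]
    refine (PadicInt.nonarchimedean _ _).trans (max_le ?_ h2)
    refine (PadicInt.nonarchimedean _ _).trans ?_
    rw [norm_neg]
    exact max_le (hGk x k) (hGk y k)
  have hpow : Tendsto (fun k : ℕ => (p:ℝ)^(-(k:ℤ))) atTop (𝓝 0) := by
    have : (fun k : ℕ => (p:ℝ)^(-(k:ℤ))) = fun k : ℕ => ((p:ℝ)⁻¹)^k := by
      funext k
      rw [zpow_neg, zpow_natCast, inv_pow]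
    rw [this]
    exact tendsto_pow_atTop_nhds_zero_of_lt_one (by positivity) (inv_lt_one_of_one_lt₀ hp1)
  refine ⟨G, ?_, ?_⟩
  · rw [Metric.continuous_iff]
    intro y ε hε
    obtain ⟨k, hk⟩ := ((hpow.eventually (gt_mem_nhds hε))).exists
    refine ⟨(p:ℝ)^(-(k:ℤ)), zpow_pos hpp _, ?_⟩
    intro x hx
    rw [dist_eq_norm] at hx ⊢
    exact lt_of_le_of_lt (hlip x y k hx.le) hk
  · intro n
    rw [← sub_eq_zero, ← norm_eq_zero]
    apply le_antisymm _ (norm_nonneg _)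
    apply ge_of_tendsto' hpow
    intro k
    have h1 := hGk (n : ℤ_[p]) k
    have h2 : ‖(((n : ℤ_[p]).appr k : ℕ) : ℤ_[p]) - ((n:ℕ) : ℤ_[p])‖ ≤ (p:ℝ)^(-(k:ℤ)) := by
      have := happr (n : ℤ_[p]) k
      rw [← norm_neg, neg_sub]
      exact this
    have h3 := hnat k _ _ h2
    have e : G (n : ℤ_[p]) - ((f n : ℤ) : ℤ_[p])
        = (G (n : ℤ_[p]) - ((f ((n : ℤ_[p]).appr k) : ℤ) : ℤ_[p]))
        + (((f ((n : ℤ_[p]).appr k) : ℤ) : ℤ_[p]) - ((f n : ℤ) : ℤ_[p])) := by ring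
    rw [e]
    exact (PadicInt.nonarchimedean _ _).trans (max_le h1 h3)

/-- `j` if prime to `p`, else `1` -/
def hh (j : ℕ) : ℤ := if p ∣ j then 1 else (j:ℤ)

lemma hh_cast (T : ℕ) (hT : 1 ≤ T) (j : ℕ) :
    ((hh p j : ℤ) : ZMod (p^T)) = haveI : NeZero (p^T) := ⟨pow_ne_zero _ hp.out.ne_zero⟩
      GG ((j : ℕ) : ZMod (p^T)) := by
  unfold hh GG
  have h := isUnit_zmod_iff p T hT (j:ℤ)
  rw [Int.cast_natCast] at h
  by_cases hd : p ∣ j
  · have hd' : (p:ℤ) ∣ (j:ℤ) := by exact_mod_cast hd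
    rw [if_pos hd, if_neg (fun hu => (h.mp hu) hd')]
    simp
  · have hd' : ¬ (p:ℤ) ∣ (j:ℤ) := by
      intro h; exact hd (by exact_mod_cast h)
    rw [if_neg hd, if_pos (h.mpr hd')]
    simp

/-- Wilson's theorem for odd prime powers, over any complete window -/
lemma wilson_window (hp2 : p ≠ 2) (T : ℕ) (hT : 1 ≤ T) (n : ℕ) :
    ((∏ j ∈ range (p^T), hh p (n+j) : ℤ) : ZMod (p^T)) = -1 := by
  have : NeZero (p^T) := ⟨pow_ne_zero _ hp.out.ne_zero⟩
  have h1 : ∀ n : ℕ, ((∏ j ∈ range (p^T), hh p (n+j) : ℤ) : ZMod (p^T))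
      = ∏ x : ZMod (p^T), GG x := by
    intro n
    rw [Int.cast_prod]
    have : ∏ j ∈ range (p^T), ((hh p (n+j) : ℤ) : ZMod (p^T))
        = ∏ j ∈ range (p^T), GG (((n:ℕ) : ZMod (p^T)) + ((j:ℕ) : ZMod (p^T))) := by
      apply prod_congr rfl
      intro j _
      rw [hh_cast p T hT]
      push_cast
      rfl
    rw [this, prod_range_zmod (p^T) (fun x => GG (((n:ℕ) : ZMod (p^T)) + x))]
    exact Fintype.prod_equiv (Equiv.addLeft ((n:ℕ) : ZMod (p^T))) _ _ (fun x => rfl)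
  rw [h1 n, ← h1 0]
  apply eq_neg_one p hp2 T hT
  · rw [h1 0]
    exact prod_GG_sq
  · rw [Int.cast_prod]
    set h : ℕ → ZMod p := fun j => ((hh p (0+j) : ℤ) : ZMod p) with hdef
    have hper : ∀ j, h (j+p) = h j := by
      intro j
      rw [hdef]
      simp only [zero_add]
      unfold hh
      by_cases hd : p ∣ j
      · rw [if_pos hd, if_pos ((Nat.dvd_add_left (dvd_refl p)).mpr hd)]
      · rw [if_neg hd, if_neg (fun h => hd ((Nat.dvd_add_left (dvd_refl p)).mp h))]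
        push_cast
        simp
    have hpT : p^T = p * p^(T-1) + 0 := by
      rw [add_zero, ← pow_succ']; congr 1; omega
    rw [hpT, prod_blocks h p hper]
    have h0 : h 0 = 1 := by rw [hdef]; simp [hh]
    have hfull : ∏ j ∈ range p, h j = -1 := by
      have e1 : p = (p-1) + 1 := by have := hp.out.one_lt; omega
      have e2 : ∏ j ∈ range p, h j = ∏ j ∈ range (p-1+1), h j := by rw [← e1]
      rw [e2, prod_range_succ', h0, mul_one]
      have hw := ZMod.wilsons_lemma p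
      rw [← prod_range_add_one_eq_factorial] at hw
      push_cast at hw
      rw [← hw]
      apply prod_congr rfl
      intro j hj
      have hj' : j < p-1 := by simpa using hj
      rw [hdef]
      simp only [zero_add]
      unfold hh
      have hnd : ¬ p ∣ j+1 := fun hd => by
        have := Nat.le_of_dvd (by omega) hd
        omega
      rw [if_neg hnd]
      push_cast
      rfl
    have hodd : Odd (p^(T-1)) := by
      apply Odd.pow
      exact hp.out.odd_of_ne_two hp2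
    rw [hfull, hodd.neg_one_pow]
    simp

lemma mg_eq (n : ℕ) : mg p n = (-1)^n * ∏ j ∈ Ico 1 n, hh p j := by
  unfold mg hh
  congr 1
  rw [prod_filter]
  apply prod_congr rfl
  intro j _
  by_cases h : p ∣ j <;> simp [h]

lemma mg_add (hp2 : p ≠ 2) (T : ℕ) (hT : 1 ≤ T) (n : ℕ) :
    ((p:ℤ)^T) ∣ mg p (n + p^T) - mg p n := by
  have hw := wilson_window p hp2 T hT
  have e : ((p:ℤ)^T) = ((p^T : ℕ) : ℤ) := by push_cast; rfl
  rw [e, ← ZMod.intCast_zmod_eq_zero_iff_dvd]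
  push_cast
  have hodd : Odd (p^T) := (hp.out.odd_of_ne_two hp2).pow
  rcases Nat.eq_zero_or_pos n with hn | hn
  · subst hn
    have h0 := hw 0
    have hpT : 0 < p^T := pow_pos hp.out.pos T
    rw [mg_eq, mg_eq, zero_add, hodd.neg_one_pow]
    have h1 : ∏ j ∈ Ico 1 (p^T), hh p j = ∏ j ∈ range (p^T), hh p (0+j) := by
      simp only [zero_add]
      rw [range_eq_Ico, prod_eq_prod_Ico_succ_bot hpT]
      have : hh p 0 = 1 := by simp [hh]
      rw [this, one_mul]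
    rw [h1]
    rw [Int.cast_mul, h0]
    simp
  · have h1 : ∏ j ∈ Ico 1 (n+p^T), hh p j
        = (∏ j ∈ Ico 1 n, hh p j) * ∏ j ∈ range (p^T), hh p (n+j) := by
      rw [← prod_Ico_consecutive _ (by omega : 1 ≤ n) (Nat.le_add_right n (p^T))]
      congr 1
      rw [prod_Ico_eq_prod_range]
      congr 2
      omega
    rw [mg_eq, mg_eq, h1, pow_add, hodd.neg_one_pow]
    rw [Int.cast_mul, Int.cast_mul (∏ j ∈ Ico 1 n, hh p j), hw n]
    push_cast
    ring

lemma mg_congr (hp2 : p ≠ 2) (k m n : ℕ) (h : (p:ℤ)^k ∣ (m:ℤ) - n) :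
    (p:ℤ)^k ∣ mg p m - mg p n := by
  rcases Nat.eq_zero_or_pos k with hk | hk
  · subst hk; simp
  · have key : ∀ (n c : ℕ), (p:ℤ)^k ∣ mg p (n + c*p^k) - mg p n := by
      intro n c
      induction c with
      | zero => simp
      | succ c ih =>
        have h1 := mg_add p hp2 k hk (n + c*p^k)
        have e : n + (c+1)*p^k = n + c*p^k + p^k := by ring
        rw [e]
        have := dvd_add h1 ih
        simpa using this
    rcases le_total n m with hnm | hnm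
    · obtain ⟨c, hc⟩ := h
      have hpk : (0:ℤ) < (p:ℤ)^k := pow_pos (by exact_mod_cast hp.out.pos) k
      have hc0 : 0 ≤ c := by
        by_contra hneg
        push Not at hneg
        have : (m:ℤ) - n < 0 := by rw [hc]; nlinarith
        omega
      obtain ⟨c', rfl⟩ := Int.eq_ofNat_of_zero_le hc0
      have hm : m = n + c'*p^k := by
        have : (m:ℤ) = ((n + c'*p^k : ℕ) : ℤ) := by push_cast; linarith
        exact_mod_cast this
      rw [hm]
      exact key n c'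
    · have h' : (p:ℤ)^k ∣ (n:ℤ) - m := by
        rw [← dvd_neg]; simpa using h
      obtain ⟨c, hc⟩ := h'
      have hpk : (0:ℤ) < (p:ℤ)^k := pow_pos (by exact_mod_cast hp.out.pos) k
      have hc0 : 0 ≤ c := by
        by_contra hneg
        push Not at hneg
        have : (n:ℤ) - m < 0 := by rw [hc]; nlinarith
        omega
      obtain ⟨c', rfl⟩ := Int.eq_ofNat_of_zero_le hc0
      have hm : n = m + c'*p^k := by
        have : (n:ℤ) = ((m + c'*p^k : ℕ) : ℤ) := by push_cast; linarith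
        exact_mod_cast this
      have := key m c'
      rw [← hm] at this
      rw [← dvd_neg]; simpa using this

/-- existence of Morita's function -/
theorem morita_exists (hp2 : p ≠ 2) :
    ∃ G : ℤ_[p] → ℤ_[p], Continuous G ∧ ∀ n : ℕ, G n = ((mg p n : ℤ) : ℤ_[p]) :=
  extend_exists p (mg p) (mg_congr p hp2)

end Pool.Agent.Swisher
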