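import Pool.Agent.Swisher.Gamma

set_option autoImplicit false
set_option linter.unusedSectionVars false

open Finset Filter Topology

namespace Pool.Agent.Swisher

variable (p : ℕ) [hp : Fact p.Prime]

lemma pow_mod_four (hp4 : p % 4 = 1) (T : ℕ) : p^T % 4 = 1 := by
  rw [Nat.pow_mod, hp4, one_pow]
  norm_num

lemma pow256 (hp4 : p % 4 = 1) (T : ℕ) (hT : 1 ≤ T) (Q : ℕ) (hQ : p^T = 4*Q+1) :
    ((∏ i ∈ range Q, (if p ∣ (i+1) then 1 else 256) : ℤ) : ZMod (p^T)) = 1 := by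
  have h1 : (∏ i ∈ range Q, (if p ∣ (i+1) then 1 else 256) : ℤ)
      = 256^((range Q).filter (fun i => ¬ p ∣ (i+1))).card := by
    rw [prod_ite, prod_const_one, one_mul, prod_const]
  rw [h1]
  have hcard : ((range Q).filter (fun i => ¬ p ∣ (i+1))).card = Q - Q/p := by
    have h2 := card_filter_add_card_filter_not (s := range Q) (fun i => p ∣ (i+1))
    rw [Nat.card_multiples, card_range] at h2
    omega
  rw [hcard]
  obtain ⟨a, ha⟩ : ∃ a, p^(T-1) = 4*a+1 := ⟨p^(T-1)/4, by have := pow_mod_four p hp4 (T-1); omega⟩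
  obtain ⟨b, hb⟩ : ∃ b, p = 4*b+1 := ⟨p/4, by omega⟩
  have hpT : p^T = p * p^(T-1) := by
    rw [← pow_succ']; congr 1; omega
  have hQ2 : Q = p*a + b := by
    have : 4*Q+1 = 4*(p*a) + p := by rw [← hQ, hpT, ha]; ring
    omega
  have hdiv : Q/p = a := by
    rw [hQ2]
    have hp0 : 0 < p := hp.out.pos
    rw [Nat.mul_add_div hp0, Nat.div_eq_of_lt (by omega)]
    simp
  have h4 : 4*(Q - Q/p) = (p^T).totient := by
    rw [Nat.totient_prime_pow hp.out (by omega), hdiv]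
    have : p^(T-1)*(p-1) = p^T - p^(T-1) := by
      rw [Nat.mul_sub, mul_one, hpT, mul_comm]
    rw [this, hQ, ha]
    omega
  have hu : IsUnit ((4:ℤ) : ZMod (p^T)) := by
    rw [isUnit_zmod_iff p T hT]
    intro h
    have h' : p ∣ 2^2 := by norm_num; exact_mod_cast h
    have := (Nat.prime_dvd_prime_iff_eq hp.out Nat.prime_two).mp (hp.out.dvd_of_dvd_pow h')
    omega
  obtain ⟨u, hu⟩ := hu
  have h5 : (((256:ℤ)^(Q - Q/p) : ℤ) : ZMod (p^T)) = ((u^(p^T).totient : (ZMod (p^T))ˣ) : ZMod (p^T)) := by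
    rw [← h4, Units.val_pow_eq_pow_val, hu, pow_mul]
    push_cast
    norm_num
  rw [h5, ZMod.pow_totient, Units.val_one]

lemma gamma_P (hp4 : p % 4 = 1) (T : ℕ) (hT : 1 ≤ T) (Q : ℕ) (hQ : p^T = 4*Q+1) :
    ((p:ℤ)^T) ∣ (mg p (3*Q+1))^4 * Pint p 0 Q - 1 := by
  have hp2 : p ≠ 2 := by omega
  have e : ((p:ℤ)^T) = ((p^T : ℕ) : ℤ) := by push_cast; rfl
  rw [e, ← ZMod.intCast_zmod_eq_zero_iff_dvd]
  set A : ℤ := ∏ j ∈ Ico 1 (3*Q+1), hh p j with hA
  set A' : ℤ := ∏ j ∈ Ico (3*Q+1) (4*Q+1), hh p j with hA'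
  set B : ℤ := ∏ i ∈ range Q, hh p (i+1) with hB
  have h1 : (mg p (3*Q+1))^4 = A^4 := by
    rw [mg_eq, mul_pow, ← pow_mul, mul_comm _ 4, pow_mul, hA]
    norm_num
  have h2 : Pint p 0 Q = (∏ i ∈ range Q, (if p ∣ (i+1) then 1 else 256)) * B^4 := by
    unfold Pint
    rw [hB, ← prod_pow, ← prod_mul_distrib]
    apply prod_congr rfl
    intro i _
    unfold hh
    by_cases hd : p ∣ i+1
    · simp [hd]
    · rw [if_neg hd, if_neg hd, if_neg hd]
      push_cast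
      ring
  have h3 : ((A*A' : ℤ) : ZMod (p^T)) = -1 := by
    rw [← wilson_window p hp2 T hT 0, hA, hA', prod_Ico_consecutive _ (by omega) (by omega), hQ]
    simp only [zero_add]
    rw [range_eq_Ico, prod_eq_prod_Ico_succ_bot (by omega : 0 < 4*Q+1)]
    have : hh p 0 = 1 := by simp [hh]
    rw [this, one_mul]
  have h4 : ((A' : ℤ) : ZMod (p^T))^2 = ((B : ℤ) : ZMod (p^T))^2 := by
    rw [hA', hB, prod_Ico_eq_prod_range]
    rw [show 4*Q+1-(3*Q+1) = Q by omega]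
    rw [← prod_range_reflect]
    rw [Int.cast_prod, Int.cast_prod, ← prod_pow, ← prod_pow]
    apply prod_congr rfl
    intro i hi
    have hi' : i < Q := by simpa using hi
    have e1 : 3*Q+1+(Q-1-i) = p^T - (i+1) := by omega
    rw [e1]
    have hle : i+1 ≤ p^T := by omega
    have hd1 : p ∣ p^T := dvd_pow_self p (by omega)
    unfold hh
    by_cases hd : p ∣ i+1
    · rw [if_pos hd, if_pos (Nat.dvd_sub hd1 hd)]
    · have hd2 : ¬ p ∣ p^T - (i+1) := by
        intro h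
        apply hd
        have := Nat.dvd_sub hd1 h
        rwa [Nat.sub_sub_self hle] at this
      rw [if_neg hd, if_neg hd2]
      rw [Nat.cast_sub hle]
      have h0 : (((p^T:ℕ):ℤ) : ZMod (p^T)) = 0 := by
        rw [ZMod.intCast_zmod_eq_zero_iff_dvd]
      rw [Int.cast_sub, h0]
      ring
  have h5 := pow256 p hp4 T hT Q hQ
  rw [h1, h2, Int.cast_sub, Int.cast_mul, Int.cast_mul, h5, Int.cast_pow, Int.cast_pow]
  rw [Int.cast_mul] at h3
  have h6 : ((A : ℤ) : ZMod (p^T))^4 * ((B : ℤ) : ZMod (p^T))^4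
      = (((A : ℤ) : ZMod (p^T)) * ((A' : ℤ) : ZMod (p^T)))^4 := by
    calc ((A : ℤ) : ZMod (p^T))^4 * ((B : ℤ) : ZMod (p^T))^4
        = ((A : ℤ) : ZMod (p^T))^4 * (((B : ℤ) : ZMod (p^T))^2)^2 := by ring
      _ = _ := by rw [← h4]; ring
  rw [one_mul, h6, h3]
  norm_num

end Pool.Agent.Swisher
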