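import Mathlib

set_option autoImplicit false
set_option linter.unusedSectionVars false

open Finset Polynomial

namespace Pool.Agent.Swisher

section field

variable {F : Type*} [Field F] [CharZero F]

/-- central binomial coefficient cast to `F` -/
def cb (F : Type*) [Field F] (k : ℕ) : F := (Nat.centralBinom k : F)

lemma cb_succ (k : ℕ) : cb F (k+1) * ((k:F)+1) = 2*(2*(k:F)+1) * cb F k := by
  have h := Nat.succ_mul_centralBinom_succ k
  have h2 : ((k + 1 : ℕ) : F) * (Nat.centralBinom (k+1) : F)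
      = ((2 * (2 * k + 1) : ℕ) : F) * (Nat.centralBinom k : F) := by
    exact_mod_cast h
  unfold cb
  push_cast at h2
  linear_combination h2

lemma cb_zero : cb F 0 = 1 := by simp [cb]

/-- the shifted factorial product `(-m)_i (c)_i` -/
def ee (m c : F) (i : ℕ) : F := ∏ a ∈ range i, (((a:F) - m) * (c + a))

lemma ee_zero (m c : F) : ee m c 0 = 1 := by simp [ee]

lemma ee_succ (m c : F) (i : ℕ) : ee m c (i+1) = ee m c i * (((i:F) - m) * (c + i)) := by
  simp [ee, prod_range_succ]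

lemma ee_split (m c : F) (i : ℕ) :
    ee m c i = (∏ a ∈ range i, ((a:F) - m)) * (∏ a ∈ range i, (c + a)) := by
  simp [ee, prod_mul_distrib]

lemma poch_shift (c : F) (i : ℕ) :
    ∏ a ∈ range (i+1), (c + (a:F)) = c * ∏ a ∈ range i, ((c+1) + (a:F)) := by
  rw [prod_range_succ']
  simp only [Nat.cast_add, Nat.cast_one, Nat.cast_zero, add_zero]
  rw [mul_comm]
  congr 1
  apply prod_congr rfl
  intro a _
  ring

lemma ee_shift_m (m c : F) (i : ℕ) :
    ee (m+1) c (i+1) = (-(m+1)) * (c + i) * ee m c i := by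
  rw [ee_split, ee_split, prod_range_succ (fun a : ℕ => c + (a:F))]
  have : ∏ a ∈ range (i+1), ((a:F) - (m+1)) = (-(m+1)) * ∏ a ∈ range i, ((a:F) - m) := by
    have h := poch_shift (-(m+1)) i
    have e1 : ∏ a ∈ range (i+1), ((a:F) - (m+1)) = ∏ a ∈ range (i+1), (-(m+1) + (a:F)) :=
      prod_congr rfl (fun a _ => by ring)
    have e2 : ∏ a ∈ range i, ((a:F) - m) = ∏ a ∈ range i, (-(m+1) + 1 + (a:F)) :=
      prod_congr rfl (fun a _ => by ring)
    rw [e1, e2, h]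
  rw [this]
  ring

lemma ee_shift_c (m c : F) (i : ℕ) :
    ee m c (i+1) = ((i:F) - m) * c * ee m (c+1) i := by
  rw [ee_split, ee_split, prod_range_succ (fun a : ℕ => (a:F) - m), poch_shift]
  ring

/-- partial sums in the Saalschuetz type identity -/
lemma saal_partial (x j m : F) (hx : ∀ l : ℕ, (2*(j+(l:F))+2)^2 - x ≠ 0) (I : ℕ) :
    ∑ i ∈ range (I+1), (((2*j+2*m+2)^2 - x) * (cb F i * ee (m+1) (2*j+m+3/2) i
        / ∏ l ∈ range i, ((2*(j+(l:F))+2)^2 - x))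
      - ((2*j+2*m+1)^2 - x) * (cb F i * ee m (2*j+m+1/2) i
        / ∏ l ∈ range i, ((2*(j+(l:F))+2)^2 - x)))
    = (4*j+4*m+3) * (2*(I:F)+1) * cb F I * ee m (2*j+m+3/2) I
        / ∏ l ∈ range I, ((2*(j+(l:F))+2)^2 - x) := by
  induction I with
  | zero => simp [ee_zero, cb_zero]; ring
  | succ I ih =>
    rw [sum_range_succ, ih]
    have hcb := cb_succ (F := F) I
    have hP : ∏ l ∈ range I, ((2*(j+(l:F))+2)^2 - x) ≠ 0 :=
      prod_ne_zero_iff.mpr (fun l _ => hx l)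
    have hl := hx I
    have hI : ((I:F)+1) ≠ 0 := by exact_mod_cast Nat.succ_ne_zero I
    have h1 := ee_shift_m m (2*j+m+3/2) I
    have h2 := ee_shift_c m (2*j+m+1/2) I
    have h2' : (2*j+m+1/2+1 : F) = 2*j+m+3/2 := by ring
    rw [h2'] at h2
    have h3 := ee_succ m (2*j+m+3/2) I
    rw [h1, h2, h3, prod_range_succ]
    set E := ee m (2*j+m+3/2) I
    set P := ∏ l ∈ range I, ((2*(j+(l:F))+2)^2 - x)
    have hcb' : cb F (I+1) = 2*(2*(I:F)+1) * cb F I / ((I:F)+1) := by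
      field_simp; linear_combination hcb
    rw [hcb']
    push_cast
    clear_value E P
    clear hx ih h1 h2 h3
    obtain ⟨D, hD⟩ : ∃ D, D = (2*(j+(I:F))+2)^2 - x := ⟨_, rfl⟩
    have hx' : x = (2*(j+(I:F))+2)^2 - D := by rw [hD]; ring
    rw [← hD] at hl ⊢
    rw [hx']
    clear hx' hD
    field_simp
    ring

lemma ee_nat_zero (m : ℕ) (c : F) (i : ℕ) (h : m < i) : ee (m:F) c i = 0 := by
  unfold ee
  apply prod_eq_zero (i := m) (by simpa using h)
  simp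

/-- Saalschuetz type identity -/
lemma saal (x : F) (j : ℕ) (hx : ∀ l : ℕ, (2*(l:F)+2)^2 - x ≠ 0) (m : ℕ) :
    ∏ i ∈ range m, (((2*((j:F)+(i:F))+1)^2 - x) / ((2*((j:F)+(i:F))+2)^2 - x))
    = ∑ i ∈ range (m+1), cb F i * ee (m:F) (2*(j:F)+(m:F)+1/2) i
        / ∏ l ∈ range i, ((2*((j:F)+(l:F))+2)^2 - x) := by
  have hx' : ∀ l : ℕ, (2*((j:F)+(l:F))+2)^2 - x ≠ 0 := by
    intro l
    have := hx (j+l)
    push_cast at this
    exact this
  induction m with
  | zero => simp [ee_zero, cb_zero]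
  | succ m ih =>
    have hp := saal_partial x (j:F) (m:F) hx' (m+1)
    rw [ee_nat_zero m _ (m+1) (Nat.lt_succ_self m)] at hp
    rw [sum_sub_distrib] at hp
    rw [← mul_sum, ← mul_sum] at hp
    rw [prod_range_succ, ih]
    have e1 : ∑ i ∈ range (m+1+1), cb F i * ee (m:F) (2*(j:F)+(m:F)+1/2) i
        / ∏ l ∈ range i, ((2*((j:F)+(l:F))+2)^2 - x)
        = ∑ i ∈ range (m+1), cb F i * ee (m:F) (2*(j:F)+(m:F)+1/2) i
        / ∏ l ∈ range i, ((2*((j:F)+(l:F))+2)^2 - x) := by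
      rw [sum_range_succ, ee_nat_zero m _ (m+1) (Nat.lt_succ_self m)]
      simp
    rw [e1] at hp
    have e2 : (2*(j:F)+(((m+1:ℕ)):F)+1/2) = 2*(j:F)+(m:F)+3/2 := by push_cast; ring
    rw [e2]
    have e3 : (((m+1:ℕ)):F) = (m:F)+1 := by push_cast; ring
    rw [e3]
    have hm := hx' m
    set S1 := ∑ i ∈ range (m+1+1), cb F i * ee ((m:F)+1) (2*(j:F)+(m:F)+3/2) i
        / ∏ l ∈ range i, ((2*((j:F)+(l:F))+2)^2 - x)
    set S2 := ∑ i ∈ range (m+1), cb F i * ee (m:F) (2*(j:F)+(m:F)+1/2) i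
        / ∏ l ∈ range i, ((2*((j:F)+(l:F))+2)^2 - x)
    rw [mul_div_assoc', div_eq_iff hm]
    have h0 : (4*(j:F)+4*(m:F)+3) * (2*(((m+1:ℕ)):F)+1) * cb F (m+1) * 0
        / ∏ l ∈ range (m+1), ((2*((j:F)+(l:F))+2)^2 - x) = 0 := by simp
    rw [h0] at hp
    linear_combination -hp

/-- `e_J(k)` -/
def eJ (k : F) (J : ℕ) : F := ee k (k+1/2) J

/-- `\hat e_J(K)` -/
def eH (k : F) (J : ℕ) : F := ee k (k+3/2) J

lemma ee_add (m c : F) (i j : ℕ) : ee m c (i + j) = ee m c i * ee (m - i) (c + i) j := by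
  unfold ee
  rw [prod_range_add]
  congr 1
  apply prod_congr rfl
  intro a _
  push_cast
  ring

lemma rel1 (K : F) (J : ℕ) :
    ee (K+1) (K+5/2) J * (K+3/2) = ee (K+1) (K+3/2) J * (K+3/2+J) := by
  rw [ee_split, ee_split]
  have h1 := poch_shift (K+3/2) J
  have h2 := prod_range_succ (fun a : ℕ => (K+3/2 + (a:F))) J
  have h3 : (K+3/2+1:F) = K+5/2 := by ring
  rw [h3] at h1
  rw [h1] at h2
  linear_combination (∏ a ∈ range J, ((a:F) - (K+1))) * h2

lemma rel2 (K : F) (J : ℕ) :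
    ee K (K+3/2) J * (-(K+1)) = ee (K+1) (K+3/2) J * ((J:F) - (K+1)) := by
  rw [ee_split, ee_split]
  have h1 := poch_shift (-(K+1)) J
  have h2 := prod_range_succ (fun a : ℕ => (-(K+1) + (a:F))) J
  have e1 : ∏ a ∈ range J, ((a:F) - (K+1)) = ∏ a ∈ range J, (-(K+1) + (a:F)) :=
    prod_congr rfl (fun a _ => by ring)
  have e2 : ∏ a ∈ range J, ((a:F) - K) = ∏ a ∈ range J, (-(K+1) + 1 + (a:F)) :=
    prod_congr rfl (fun a _ => by ring)
  rw [e1, e2]
  rw [h1] at h2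
  linear_combination (∏ a ∈ range J, (K+3/2 + (a:F))) * h2

/-- normalised central binomial coefficients -/
def beta (F : Type*) [Field F] (k : ℕ) : F := cb F k / 4^k

lemma beta_succ (k : ℕ) : beta F (k+1) * (2*(k:F)+2) = beta F k * (2*(k:F)+1) := by
  unfold beta
  have h := cb_succ (F := F) k
  have h4 : (4:F)^k ≠ 0 := pow_ne_zero _ (by norm_num)
  rw [pow_succ]
  field_simp
  linear_combination 2 * h

lemma tele (J K : ℕ) :
    ∑ k ∈ range (K+1), (-1)^k * (4*(k:F)+1) * beta F k * eJ (k:F) J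
    = (-1)^K * (2*(K:F)+1) * beta F K * eH (K:F) J := by
  induction K with
  | zero =>
    simp only [zero_add, range_one, sum_singleton, pow_zero, Nat.cast_zero, mul_zero, one_mul]
    congr 1
    unfold eJ eH
    cases J with
    | zero => simp [ee_zero]
    | succ J =>
      have := ee_nat_zero (F := F) 0 (0+1/2) (J+1) (Nat.succ_pos J)
      have h2 := ee_nat_zero (F := F) 0 (0+3/2) (J+1) (Nat.succ_pos J)
      rw [Nat.cast_zero] at this h2
      rw [this, h2]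
  | succ K ih =>
    rw [sum_range_succ, ih]
    unfold eJ eH
    have r1 := rel1 (K:F) J
    have r2 := rel2 (K:F) J
    have hb := beta_succ (F := F) K
    push_cast
    have e1 : ((K:F)+1+1/2) = K+3/2 := by ring
    have e2 : ((K:F)+1+3/2) = K+5/2 := by ring
    rw [e1, e2, pow_succ]
    linear_combination (-1)^K * (-1) * ee (K:F) (K+3/2) J * hb
      + (-1)^K * beta F (K+1) * (2 * r1 - 2 * r2)

/-- `A_k(x)` -/
def AA (x : F) (k : ℕ) : F := ∏ i ∈ range k, (((2*(i:F)+1)^2 - x) / ((2*(i:F)+2)^2 - x))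

/-- `\Delta_{a,b}(x)` -/
def DD (x : F) (a b : ℕ) : F := ∏ l ∈ Ico a b, ((2*(l:F)+2)^2 - x)

/-- odd products -/
def OO (x : F) (k : ℕ) : F := ∏ l ∈ range k, ((2*(l:F)+1)^2 - x)

lemma DD_ne (x : F) (hx : ∀ l : ℕ, (2*(l:F)+2)^2 - x ≠ 0) (a b : ℕ) : DD x a b ≠ 0 :=
  prod_ne_zero_iff.mpr (fun l _ => hx l)

lemma DD_mul (x : F) {a b c : ℕ} (h1 : a ≤ b) (h2 : b ≤ c) : DD x a b * DD x b c = DD x a c :=
  prod_Ico_consecutive _ h1 h2

lemma AA_eq (x : F) (k : ℕ) : AA x k = OO x k / DD x 0 k := by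
  unfold AA OO DD
  rw [← range_eq_Ico, prod_div_distrib]

lemma shift_prod (x : F) (j i : ℕ) :
    ∏ l ∈ range i, ((2*((j:F)+(l:F))+2)^2 - x) = DD x j (i+j) := by
  unfold DD
  rw [add_comm i j, prod_Ico_eq_prod_range]
  rw [show j + i - j = i by omega]
  apply prod_congr rfl
  intro l _
  push_cast
  ring

lemma eJ_zero_of_lt (k J : ℕ) (h : k < J) : eJ (k:F) J = 0 := ee_nat_zero _ _ _ h

lemma eH_zero_of_lt (k J : ℕ) (h : k < J) : eH (k:F) J = 0 := ee_nat_zero _ _ _ h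

lemma AA_expand (x : F) (hx : ∀ l : ℕ, (2*(l:F)+2)^2 - x ≠ 0) (K k : ℕ) (hk : k ≤ K) :
    AA x k = ∑ j ∈ range (K+1), cb F j * eJ (k:F) j / DD x 0 j := by
  have h := saal x 0 hx k
  have e : AA x k = ∏ i ∈ range k, (((2*(((0:ℕ):F)+(i:F))+1)^2 - x)
      / ((2*(((0:ℕ):F)+(i:F))+2)^2 - x)) := by
    unfold AA
    apply prod_congr rfl
    intro i _
    simp
  rw [e, h]
  have hsub : range (k+1) ⊆ range (K+1) := range_subset_range.mpr (by omega)
  rw [← sum_subset hsub]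
  · apply sum_congr rfl
    intro i _
    rw [shift_prod]
    simp [eJ]
  · intro i _ hi
    rw [eJ_zero_of_lt k i (by simpa using hi)]
    simp

lemma AA_mul_eJ (x : F) (hx : ∀ l : ℕ, (2*(l:F)+2)^2 - x ≠ 0) (K k j : ℕ) (hk : k ≤ K) :
    AA x k * eJ (k:F) j
      = AA x j * ∑ i ∈ range (K+1-j), cb F i * eJ (k:F) (i+j) / DD x j (i+j) := by
  rcases lt_or_ge k j with hkj | hkj
  · rw [eJ_zero_of_lt k j hkj, mul_zero]
    symm
    rw [mul_eq_zero]
    right
    apply sum_eq_zero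
    intro i _
    rw [eJ_zero_of_lt k (i+j) (by omega)]
    simp
  · obtain ⟨m, rfl⟩ := Nat.exists_eq_add_of_le hkj
    have h := saal x j hx m
    have e1 : AA x (j+m) = AA x j * ∏ i ∈ range m, (((2*((j:F)+(i:F))+1)^2 - x)
        / ((2*((j:F)+(i:F))+2)^2 - x)) := by
      unfold AA
      rw [prod_range_add]
      congr 1
      apply prod_congr rfl
      intro i _
      push_cast
      rfl
    rw [e1, h, mul_assoc]
    congr 1
    rw [sum_mul]
    have hsub : range (m+1) ⊆ range (K+1-j) := range_subset_range.mpr (by omega)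
    rw [← sum_subset hsub]
    · apply sum_congr rfl
      intro i _
      rw [shift_prod]
      have : eJ (((j+m:ℕ)):F) (i+j) = eJ (((j+m:ℕ)):F) j * ee (m:F) (2*(j:F)+(m:F)+1/2) i := by
        unfold eJ
        rw [add_comm i j, ee_add]
        congr 2
        · push_cast; ring
        · push_cast; ring
      rw [this]
      ring
    · intro i _ hi
      rw [eJ_zero_of_lt (j+m) (i+j) (by simp at hi; omega)]
      simp

lemma combined (x y : F) (hx : ∀ l : ℕ, (2*(l:F)+2)^2 - x ≠ 0)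
    (hy : ∀ l : ℕ, (2*(l:F)+2)^2 - y ≠ 0) (K : ℕ) :
    ∑ k ∈ range (K+1), (-1)^k * (4*(k:F)+1) * beta F k * (AA x k * AA y k)
    = (-1)^K * (2*(K:F)+1) * beta F K * ∑ j ∈ range (K+1), ∑ i ∈ range (K+1-j),
        cb F j * cb F i * AA x j * eH (K:F) (i+j) / (DD y 0 j * DD x j (i+j)) := by
  have step : ∀ k ∈ range (K+1), (-1)^k * (4*(k:F)+1) * beta F k * (AA x k * AA y k)
      = ∑ j ∈ range (K+1), ∑ i ∈ range (K+1-j), cb F j * cb F i * AA x j
          / (DD y 0 j * DD x j (i+j)) * ((-1)^k * (4*(k:F)+1) * beta F k * eJ (k:F) (i+j)) := by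
    intro k hk
    have hk' : k ≤ K := by simpa [Nat.lt_succ_iff] using hk
    rw [AA_expand y hy K k hk', mul_sum, mul_sum]
    apply sum_congr rfl
    intro j _
    have h := AA_mul_eJ x hx K k j hk'
    have : (-1)^k * (4*(k:F)+1) * beta F k * (AA x k * (cb F j * eJ (k:F) j / DD y 0 j))
        = (-1)^k * (4*(k:F)+1) * beta F k * cb F j / DD y 0 j * (AA x k * eJ (k:F) j) := by ring
    rw [this, h, mul_sum, mul_sum]
    apply sum_congr rfl
    intro i _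
    have hd := DD_ne y hy 0 j
    have hd2 := DD_ne x hx j (i+j)
    field_simp
  rw [sum_congr rfl step, sum_comm]
  rw [mul_sum]
  apply sum_congr rfl
  intro j _
  rw [sum_comm, mul_sum]
  apply sum_congr rfl
  intro i _
  rw [← mul_sum, tele]
  ring

lemma eH_scaled (K J : ℕ) : (2:F)^J * eH (K:F) J
    = ∏ a ∈ range J, (((a:F) - K) * (2*(K:F)+3+2*a)) := by
  unfold eH ee
  have h2 : (2:F)^J = ∏ _a ∈ range J, (2:F) := by simp
  rw [h2, ← prod_mul_distrib]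
  apply prod_congr rfl
  intro a _
  ring

/-- left side, cleared of denominators -/
lemma lhs_cleared (x y : F) (hx : ∀ l : ℕ, (2*(l:F)+2)^2 - x ≠ 0)
    (hy : ∀ l : ℕ, (2*(l:F)+2)^2 - y ≠ 0) (K : ℕ) :
    4^K * (DD x 0 K * DD y 0 K) *
      ∑ k ∈ range (K+1), (-1)^k * (4*(k:F)+1) * beta F k * (AA x k * AA y k)
    = ∑ k ∈ range (K+1), (-1)^k * (4*(k:F)+1) * cb F k * 4^(K-k)
        * ((OO x k * OO y k) * (DD x k K * DD y k K)) := by
  rw [mul_sum]
  apply sum_congr rfl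
  intro k hk
  have hk' : k ≤ K := by simpa [Nat.lt_succ_iff] using hk
  rw [AA_eq, AA_eq, ← DD_mul x (Nat.zero_le k) hk', ← DD_mul y (Nat.zero_le k) hk']
  have h1 := DD_ne x hx 0 k
  have h2 := DD_ne y hy 0 k
  have h4 : (4:F)^K = 4^k * 4^(K-k) := by rw [← pow_add]; congr 1; omega
  have h4k : (4:F)^k ≠ 0 := pow_ne_zero _ (by norm_num)
  unfold beta
  rw [h4]
  field_simp

lemma rhs_cleared (x y : F) (hx : ∀ l : ℕ, (2*(l:F)+2)^2 - x ≠ 0)
    (hy : ∀ l : ℕ, (2*(l:F)+2)^2 - y ≠ 0) (K : ℕ) :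
    2^K * (4^K * (DD x 0 K * DD y 0 K) * ((-1)^K * (2*(K:F)+1) * beta F K *
      ∑ j ∈ range (K+1), ∑ i ∈ range (K+1-j),
        cb F j * cb F i * AA x j * eH (K:F) (i+j) / (DD y 0 j * DD x j (i+j))))
    = (2*(K:F)+1) * ((-1)^K * ∑ j ∈ range (K+1), ∑ i ∈ range (K+1-j),
        cb F j * cb F i * cb F K * 2^(K-(i+j)) *
        (∏ a ∈ range (i+j), (((a:F) - K) * (2*(K:F)+3+2*a))) *
        (OO x j * DD x (i+j) K * DD y j K)) := by
  have : 2^K * (4^K * (DD x 0 K * DD y 0 K) * ((-1)^K * (2*(K:F)+1) * beta F K *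
      ∑ j ∈ range (K+1), ∑ i ∈ range (K+1-j),
        cb F j * cb F i * AA x j * eH (K:F) (i+j) / (DD y 0 j * DD x j (i+j))))
      = (2*(K:F)+1) * ((-1)^K * (2^K * (4^K * (DD x 0 K * DD y 0 K) * (beta F K *
      ∑ j ∈ range (K+1), ∑ i ∈ range (K+1-j),
        cb F j * cb F i * AA x j * eH (K:F) (i+j) / (DD y 0 j * DD x j (i+j)))))) := by ring
  rw [this]
  congr 2
  simp only [mul_sum]
  apply sum_congr rfl
  intro j hj
  apply sum_congr rfl
  intro i hi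
  have hj' : j ≤ K := by simpa [Nat.lt_succ_iff] using hj
  have hi' : i + j ≤ K := by simp at hi; omega
  rw [← eH_scaled, AA_eq, ← DD_mul y (Nat.zero_le j) hj',
    ← DD_mul x (Nat.zero_le j) hj', ← DD_mul x (Nat.le_add_left j i) hi']
  have h1 := DD_ne x hx 0 j
  have h2 := DD_ne y hy 0 j
  have h3 := DD_ne x hx j (i+j)
  have h4 : (2:F)^K = 2^(i+j) * 2^(K-(i+j)) := by rw [← pow_add]; congr 1; omega
  have h4k : (4:F)^K ≠ 0 := pow_ne_zero _ (by norm_num)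
  have h4b : cb F K = 4^K * beta F K := by unfold beta; field_simp
  rw [h4, h4b]
  field_simp

end field

/-- the polynomial `4^K F_K(U)` -/
noncomputable def Fp (K : ℕ) : ℤ[X] :=
  ∑ k ∈ range (K+1), C ((-1)^k * (4*(k:ℤ)+1) * (Nat.centralBinom k : ℤ) * 4^(K-k))
    * ((∏ l ∈ range k, (C ((2*(l:ℤ)+1)^4) - X)) * ∏ l ∈ Ico k K, (C ((2*(l:ℤ)+2)^4) - X))

/-- the cofactor polynomial -/
noncomputable def HH (K : ℕ) : ℤ[X] :=
  C ((-1)^K) * ∑ j ∈ range (K+1), ∑ i ∈ range (K+1-j),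
    C ((Nat.centralBinom j : ℤ) * (Nat.centralBinom i : ℤ) * (Nat.centralBinom K : ℤ)
      * 2^(K-(i+j)) * (∏ a ∈ range (i+j), (((a:ℤ) - K) * (2*(K:ℤ)+3+2*a)))) *
    ((∏ l ∈ range j, (C ((2*(l:ℤ)+1)^2) - X)) * (∏ l ∈ Ico (i+j) K, (C ((2*(l:ℤ)+2)^2) - X))
      * ∏ l ∈ Ico j K, (C ((2*(l:ℤ)+2)^2) + X))

lemma odd_ne (t l : ℕ) : (2*(l:ℚ)+2)^2 - (2*(t:ℚ)+1) ≠ 0 := by
  intro h
  have h2 : (2*(l:ℤ)+2)^2 - (2*(t:ℤ)+1) = 0 := by exact_mod_cast h
  have h3 : (2*(l:ℤ)+2)^2 = 2 * (2*((l:ℤ)+1)^2) := by ring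
  omega

lemma odd_ne' (t l : ℕ) : (2*(l:ℚ)+2)^2 - (-(2*(t:ℚ)+1)) ≠ 0 := by
  have : (0:ℚ) < (2*(l:ℚ)+2)^2 + (2*(t:ℚ)+1) := by positivity
  rw [sub_neg_eq_add]
  exact this.ne'

lemma key_poly (K : ℕ) : C ((2:ℤ)^K) * (Fp K).comp (X^2) = C (2*(K:ℤ)+1) * HH K := by
  apply Polynomial.eq_of_infinite_eval_eq
  apply Set.infinite_of_injective_forall_mem (f := fun t : ℕ => (2*(t:ℤ)+1))
  · intro a b h
    simp at h
    exact h
  · intro t
    simp only [Set.mem_ofPred_eq]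
    have hx := odd_ne t
    have hy := odd_ne' t
    have h1 := lhs_cleared (2*(t:ℚ)+1) (-(2*(t:ℚ)+1)) hx hy K
    have h2 := rhs_cleared (2*(t:ℚ)+1) (-(2*(t:ℚ)+1)) hx hy K
    have h3 := combined (2*(t:ℚ)+1) (-(2*(t:ℚ)+1)) hx hy K
    rw [← h3, h1] at h2
    have e1 : ((eval (2*(t:ℤ)+1) (C ((2:ℤ)^K) * (Fp K).comp (X^2)) : ℤ) : ℚ)
        = 2 ^ K * ∑ k ∈ range (K + 1), (-1) ^ k * (4 * (k:ℚ) + 1) * cb ℚ k * 4 ^ (K - k)
        * (OO (2*(t:ℚ)+1) k * OO (-(2*(t:ℚ)+1)) k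
          * (DD (2*(t:ℚ)+1) k K * DD (-(2*(t:ℚ)+1)) k K)) := by
      rw [eval_mul, eval_C, eval_comp]
      unfold Fp
      simp only [eval_finsetSum, eval_mul, eval_prod, eval_sub, eval_C, eval_X, eval_pow]
      push_cast
      congr 1
      apply sum_congr rfl
      intro k _
      unfold OO DD cb
      rw [← prod_mul_distrib, ← prod_mul_distrib]
      congr 1
      congr 1
      · apply prod_congr rfl
        intro l _
        ring
      · apply prod_congr rfl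
        intro l _
        ring
    have e2 : ((eval (2*(t:ℤ)+1) (C (2*(K:ℤ)+1) * HH K) : ℤ) : ℚ)
        = (2 * (K:ℚ) + 1) *
      ((-1) ^ K *
        ∑ j ∈ range (K + 1),
          ∑ i ∈ range (K + 1 - j),
            cb ℚ j * cb ℚ i * cb ℚ K * 2 ^ (K - (i + j)) *
            (∏ a ∈ range (i + j), (((a:ℚ) - K) * (2 * (K:ℚ) + 3 + 2 * a))) *
              (OO (2*(t:ℚ)+1) j * DD (2*(t:ℚ)+1) (i + j) K * DD (-(2*(t:ℚ)+1)) j K)) := by
      rw [eval_mul, eval_C]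
      unfold HH
      simp only [eval_finsetSum, eval_mul, eval_prod, eval_sub, eval_add, eval_C, eval_X]
      push_cast
      congr 2
      apply sum_congr rfl
      intro j _
      apply sum_congr rfl
      intro i _
      unfold OO DD cb
      congr 1
      congr 1
      apply prod_congr rfl
      intro l _
      ring
    have h4 := e1.trans (h2.trans e2.symm)
    exact_mod_cast h4

/-- every coefficient of `4^K F_K` is divisible by `2K+1` -/
theorem dvd_coeff_Fp (K i : ℕ) : (2*(K:ℤ)+1) ∣ (Fp K).coeff i := by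
  have h := key_poly K
  have h1 : (C ((2:ℤ)^K) * (Fp K).comp (X^2)).coeff (i*2) = 2^K * (Fp K).coeff i := by
    rw [coeff_C_mul, ← expand_eq_comp_X_pow, coeff_expand_mul (by norm_num)]
  have h2 : (C (2*(K:ℤ)+1) * HH K).coeff (i*2) = (2*(K:ℤ)+1) * (HH K).coeff (i*2) := by
    rw [coeff_C_mul]
  rw [h, h2] at h1
  have hcop : IsCoprime (2*(K:ℤ)+1) ((2:ℤ)^K) := by
    apply IsCoprime.pow_right
    exact ⟨1, -K, by ring⟩
  exact hcop.dvd_of_dvd_mul_left ⟨_, h1.symm⟩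

end Pool.Agent.Swisher
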