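import Mathlib

set_option autoImplicit false
set_option linter.unusedSectionVars false

open Finset Polynomial

namespace Pool.Agent.Swisher

/-- evaluation at zero of an integer polynomial of small degree, by interpolation -/
lemma lagrange_zero (k : ℕ) (u : ℕ → ℤ) (hu : Function.Injective u) (R : ℤ[X])
    (hR : R.degree < (k+1 : ℕ)) :
    ((R.eval 0 : ℤ) : ℚ) = ∑ i ∈ range (k+1), ((R.eval (u i) : ℤ) : ℚ) *
      (Lagrange.basis (range (k+1)) (fun i => ((u i : ℤ) : ℚ)) i).eval 0 := by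
  set f : ℚ[X] := R.map (Int.castRingHom ℚ) with hf
  have hinj : Set.InjOn (fun i => ((u i : ℤ) : ℚ)) (range (k+1) : Finset ℕ) := by
    intro a _ b _ hab
    apply hu
    have hab' : ((u a : ℤ) : ℚ) = ((u b : ℤ) : ℚ) := hab
    exact_mod_cast hab'
  have hdeg : f.degree < (range (k+1)).card := by
    rw [card_range]
    exact lt_of_le_of_lt (degree_map_le) hR
  have h := Lagrange.eq_interpolate hinj hdeg
  have h2 : eval 0 f = eval 0 ((Lagrange.interpolate (range (k+1)) (fun i => ((u i : ℤ) : ℚ)))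
      fun i => eval ((u i : ℤ) : ℚ) f) := congrArg (fun g => eval 0 g) h
  rw [Lagrange.interpolate_apply, eval_finsetSum] at h2
  have e0 : eval 0 f = ((R.eval 0 : ℤ) : ℚ) := by
    rw [hf, eval_map]
    have := eval₂_hom (p := R) (Int.castRingHom ℚ) 0
    simpa using this
  rw [e0] at h2
  rw [h2]
  apply sum_congr rfl
  intro i _
  rw [eval_mul, eval_C]
  congr 1
  rw [hf, eval_map]
  have := eval₂_hom (p := R) (Int.castRingHom ℚ) (u i)
  simpa using this

variable (p : ℕ) [hp : Fact p.Prime]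

lemma norm_int_le_one (z : ℤ) : ‖((z : ℤ) : ℚ_[p])‖ ≤ 1 := Padic.norm_int_le_one z

/-- the interpolation bound -/
theorem interp_bound (r k : ℕ) (u : ℕ → ℤ) (hu : Function.Injective u) :
    ∃ Λ : ℝ, ∀ (T : ℕ) (E E0 : ℤ[X]), E = C ((p:ℤ)^r) * E0 →
      (∀ i ∈ range (k+1), ((p:ℤ)^T) ∣ E.eval (u i)) →
      ‖((E.eval 0 : ℤ) : ℚ_[p])‖
        ≤ max (‖((p:ℤ)^r : ℚ_[p])‖ * ‖((∏ i ∈ range (k+1), (u i) : ℤ) : ℚ_[p])‖)
            ((p:ℝ)^(-(T:ℤ)) * Λ) := by
  refine ⟨∑ i ∈ range (k+1), ‖(((Lagrange.basis (range (k+1)) (fun i => ((u i : ℤ) : ℚ)) i).eval 0 : ℚ) :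
      ℚ_[p])‖, ?_⟩
  intro T E E0 hE hdvd
  set M : ℤ[X] := ∏ i ∈ range (k+1), (X - C (u i)) with hM
  have hMm : M.Monic := monic_prod_of_monic _ _ (fun i _ => monic_X_sub_C _)
  have hMd : M.natDegree = k+1 := by
    rw [hM, natDegree_prod_of_monic _ _ (fun i _ => monic_X_sub_C _)]
    simp only [natDegree_X_sub_C]
    simp
  set R := E0 %ₘ M with hR
  set g := E0 /ₘ M with hg
  have hsplit : R + M * g = E0 := modByMonic_add_div E0 M
  have hRd : R.degree < ((k+1 : ℕ) : WithBot ℕ) := by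
    have h1 := degree_modByMonic_lt E0 hMm
    rw [degree_eq_natDegree hMm.ne_zero, hMd] at h1
    exact h1
  have hMu : ∀ i ∈ range (k+1), M.eval (u i) = 0 := by
    intro i hi
    rw [hM, eval_prod]
    apply prod_eq_zero hi
    simp
  have hM0 : M.eval 0 = (-1)^(k+1) * ∏ i ∈ range (k+1), (u i) := by
    rw [hM, eval_prod]
    have : ∏ i ∈ range (k+1), eval 0 (X - C (u i)) = ∏ i ∈ range (k+1), ((-1) * u i) := by
      apply prod_congr rfl
      intro i _
      simp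
    rw [this, prod_mul_distrib, prod_const, card_range]
  have hEu : ∀ i ∈ range (k+1), E.eval (u i) = (p:ℤ)^r * R.eval (u i) := by
    intro i hi
    rw [hE, ← hsplit]
    simp only [eval_mul, eval_C, eval_add, hMu i hi]
    ring
  have hE0 : E.eval 0 = (p:ℤ)^r * R.eval 0 + (p:ℤ)^r * (M.eval 0 * g.eval 0) := by
    rw [hE, ← hsplit]
    simp only [eval_mul, eval_C, eval_add]
    ring
  have hlag := lagrange_zero k u hu R hRd
  have hq : ((E.eval 0 : ℤ) : ℚ) = (∑ i ∈ range (k+1), ((E.eval (u i) : ℤ) : ℚ) *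
      (Lagrange.basis (range (k+1)) (fun i => ((u i : ℤ) : ℚ)) i).eval 0)
      + (((p:ℤ)^r * (M.eval 0 * g.eval 0) : ℤ) : ℚ) := by
    rw [hE0]
    push_cast
    rw [hlag, mul_sum]
    congr 1
    apply sum_congr rfl
    intro i hi
    rw [hEu i hi]
    push_cast
    ring
  have hqp : ((E.eval 0 : ℤ) : ℚ_[p]) = (∑ i ∈ range (k+1), ((E.eval (u i) : ℤ) : ℚ_[p]) *
      (((Lagrange.basis (range (k+1)) (fun i => ((u i : ℤ) : ℚ)) i).eval 0 : ℚ) : ℚ_[p]))
      + (((p:ℤ)^r * (M.eval 0 * g.eval 0) : ℤ) : ℚ_[p]) := by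
    have := congrArg (fun z : ℚ => (z : ℚ_[p])) hq
    push_cast at this ⊢
    exact this
  rw [hqp, add_comm]
  refine (Padic.nonarchimedean _ _).trans (max_le_max ?_ ?_)
  · rw [hM0]
    push_cast
    rw [norm_mul, norm_mul, norm_mul, norm_pow (-1 : ℚ_[p])]
    rw [norm_neg, norm_one, one_pow, one_mul]
    apply mul_le_mul_of_nonneg_left _ (norm_nonneg _)
    have := Padic.norm_int_le_one (p := p) (g.eval 0)
    calc ‖∏ i ∈ range (k+1), ((u i : ℤ) : ℚ_[p])‖ * ‖((g.eval 0 : ℤ) : ℚ_[p])‖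
        ≤ ‖∏ i ∈ range (k+1), ((u i : ℤ) : ℚ_[p])‖ * 1 :=
          mul_le_mul_of_nonneg_left this (norm_nonneg _)
      _ = _ := mul_one _
  · refine (norm_sum_le _ _).trans ?_
    rw [mul_sum]
    apply sum_le_sum
    intro i hi
    rw [norm_mul]
    apply mul_le_mul_of_nonneg_right _ (norm_nonneg _)
    rw [Padic.norm_int_le_pow_iff_dvd]
    exact_mod_cast hdvd i hi

end Pool.Agent.Swisher
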