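import Pool.Agent.Swisher.Poly
import Pool.Agent.Swisher.GammaP
import Pool.Agent.Swisher.Interp

set_option autoImplicit false
set_option linter.unusedSectionVars false

open Finset Polynomial Filter Topology

namespace Pool.Agent.Swisher

/-- the integer identity comparing the two products of odd and even numbers -/
lemma prod_identity (p k K r : ℕ) (hp : 1 ≤ p) (hr : 1 ≤ r) (hk : 2*k+1 = p^(r-1))
    (hK : p*(2*k+1) = 2*K+1) :
    (∏ l ∈ range K, (if p ∣ (l+1) then 1 else (l+1))) * 2^(k+K)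
      * (∏ i ∈ range (k+1), (p*(2*i+1)))
    = p^r * Nat.centralBinom k * ∏ l ∈ range K, (2*l+2) := by
  have h1 : ∀ k : ℕ, (∏ i ∈ range (k+1), (2*i+1)) * 2^k
      = (2*k+1) * Nat.centralBinom k * k.factorial := by
    intro k
    induction k with
    | zero => simp
    | succ k ih =>
      rw [prod_range_succ, pow_succ, Nat.factorial_succ]
      have hc := Nat.succ_mul_centralBinom_succ k
      calc (∏ i ∈ range (k+1), (2*i+1)) * (2*(k+1)+1) * (2^k*2)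
          = ((∏ i ∈ range (k+1), (2*i+1)) * 2^k) * (2*(k+1)+1) * 2 := by ring
        _ = (2*(k+1)+1) * (2*(2*k+1)*Nat.centralBinom k) * k.factorial := by rw [ih]; ring
        _ = (2*(k+1)+1) * ((k+1) * Nat.centralBinom (k+1)) * k.factorial := by rw [hc]
        _ = _ := by ring
  have h2 : ∏ l ∈ range K, (2*l+2) = 2^K * ∏ l ∈ range K, (l+1) := by
    have : 2^K = ∏ _l ∈ range K, 2 := by simp
    rw [this, ← prod_mul_distrib]
    apply prod_congr rfl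
    intro l _
    ring
  have h3 := range_split (fun j => j) p k K hp hK
  have h4 : ∏ l ∈ range k, (p*(l+1)) = p^k * k.factorial := by
    rw [prod_mul_distrib, prod_const, card_range, prod_range_add_one_eq_factorial]
  have h5 : ∏ i ∈ range (k+1), (p*(2*i+1)) = p^(k+1) * ∏ i ∈ range (k+1), (2*i+1) := by
    rw [prod_mul_distrib, prod_const, card_range]
  rw [h2, h3, h4, h5]
  have hpr : p^r = p * (2*k+1) := by
    rw [hk, ← pow_succ']; congr 1; omega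
  rw [hpr]
  have := h1 k
  calc (∏ l ∈ range K, (if p ∣ (l+1) then 1 else (l+1))) * 2^(k+K)
      * (p^(k+1) * ∏ i ∈ range (k+1), (2*i+1))
      = (∏ l ∈ range K, (if p ∣ (l+1) then 1 else (l+1))) * 2^K * p^(k+1)
        * ((∏ i ∈ range (k+1), (2*i+1)) * 2^k) := by rw [pow_add]; ring
    _ = _ := by rw [this]; ring

variable (p : ℕ) [hp : Fact p.Prime]

lemma norm_m0 (hp2 : p ≠ 2) (k K r : ℕ) (hr : 1 ≤ r) (hk : 2*k+1 = p^(r-1))
    (hK : p*(2*k+1) = 2*K+1) :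
    ‖((∏ i ∈ range (k+1), ((p:ℤ)*(2*(i:ℤ)+1)) : ℤ) : ℚ_[p])‖
      ≤ (p:ℝ)^(-(r:ℤ)) * ‖((∏ l ∈ range K, (2*(l:ℤ)+2) : ℤ) : ℚ_[p])‖ := by
  have hp1 : 1 ≤ p := hp.out.one_lt.le
  have h := prod_identity p k K r hp1 hr hk hK
  have hz : ((∏ l ∈ range K, (if p ∣ (l+1) then 1 else (l+1)) : ℕ) : ℤ) * 2^(k+K)
      * (∏ i ∈ range (k+1), ((p:ℤ)*(2*(i:ℤ)+1)))
    = (p:ℤ)^r * (Nat.centralBinom k : ℤ) * ∏ l ∈ range K, (2*(l:ℤ)+2) := by
    have := congrArg (fun n : ℕ => (n:ℤ)) h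
    push_cast at this ⊢
    exact this
  have hq := congrArg (fun n : ℤ => ‖(n : ℚ_[p])‖) hz
  simp only [Int.cast_mul, norm_mul] at hq
  have hunit : ∀ z : ℤ, ¬ (p:ℤ) ∣ z → ‖(z : ℚ_[p])‖ = 1 := by
    intro z hzd
    apply le_antisymm (Padic.norm_int_le_one z)
    by_contra hlt
    push Not at hlt
    exact hzd (Padic.norm_intCast_lt_one_iff.mp hlt)
  have hp' : Prime (p:ℤ) := Nat.prime_iff_prime_int.mp hp.out
  have u1 : ‖((((∏ l ∈ range K, (if p ∣ (l+1) then 1 else (l+1)) : ℕ) : ℤ)) : ℚ_[p])‖ = 1 := by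
    apply hunit
    push_cast
    intro hd
    obtain ⟨j, _, hdj⟩ := (hp'.dvd_finsetProd_iff _).mp hd
    by_cases hpj : p ∣ j+1
    · rw [if_pos hpj] at hdj
      exact hp'.not_dvd_one hdj
    · rw [if_neg hpj] at hdj
      exact hpj (by exact_mod_cast hdj)
  have u2 : ‖((2^(k+K) : ℤ) : ℚ_[p])‖ = 1 := by
    apply hunit
    intro hd
    have h2 := hp'.dvd_of_dvd_pow hd
    have h22 : p ∣ 2 := by exact_mod_cast h2
    exact hp2 ((Nat.prime_dvd_prime_iff_eq hp.out Nat.prime_two).mp h22)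
  rw [u1, u2, one_mul, one_mul] at hq
  rw [hq]
  have u3 : ‖(((p:ℤ)^r : ℤ) : ℚ_[p])‖ = (p:ℝ)^(-(r:ℤ)) := by
    push_cast
    rw [norm_pow, Padic.norm_p, zpow_neg, zpow_natCast, inv_pow]
  rw [u3]
  have u4 : ‖(((Nat.centralBinom k : ℕ) : ℤ) : ℚ_[p])‖ ≤ 1 := Padic.norm_int_le_one _
  have hp0 : (0:ℝ) < p := by exact_mod_cast hp.out.pos
  apply mul_le_mul_of_nonneg_right _ (norm_nonneg _)
  calc (p:ℝ)^(-(r:ℤ)) * ‖(((Nat.centralBinom k : ℕ) : ℤ) : ℚ_[p])‖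
      ≤ (p:ℝ)^(-(r:ℤ)) * 1 := mul_le_mul_of_nonneg_left u4 (zpow_nonneg hp0.le _)
    _ = _ := mul_one _

/-- the main congruence in terms of norms -/
theorem main_norm (hp4 : p % 4 = 1) (G : ℤ_[p] → ℤ_[p]) (hc : Continuous G)
    (hv : ∀ n : ℕ, 1 ≤ n → G n = ((mg p n : ℤ) : ℤ_[p])) (x : ℤ_[p]) (hx : 4 * x = 1)
    (r : ℕ) (hr : 1 ≤ r) (k K : ℕ) (hk : 2*k+1 = p^(r-1)) (hK : 2*K+1 = p^r) :
    ‖((TT 0 K : ℚ) : ℚ_[p]) + (p : ℚ_[p]) * ((G x : ℤ_[p]) : ℚ_[p])^4 * ((TT 0 k : ℚ) : ℚ_[p])‖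
      ≤ (p:ℝ)^(-((5*r:ℕ):ℤ)) := by
  have hp2 : p ≠ 2 := by omega
  have hp1 : 1 ≤ p := hp.out.one_lt.le
  have hpr1 : (1:ℝ) < p := by exact_mod_cast hp.out.one_lt
  have hp0 : (0:ℝ) < p := by linarith
  have hKk : p*(2*k+1) = 2*K+1 := by
    rw [hk, hK, ← pow_succ']; congr 1; omega
  set u : ℕ → ℤ := fun i => ((p:ℤ)*(2*(i:ℤ)+1))^4 with hu
  have huinj : Function.Injective u := by
    intro a b hab
    simp only [hu] at hab
    have hpz : (0:ℤ) < p := by exact_mod_cast hp.out.pos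
    have ha : (0:ℤ) ≤ (p:ℤ)*(2*(a:ℤ)+1) := by positivity
    have hb : (0:ℤ) ≤ (p:ℤ)*(2*(b:ℤ)+1) := by positivity
    have h1 := (pow_left_inj₀ ha hb (by norm_num : (4:ℕ) ≠ 0)).mp hab
    have h2 := mul_left_cancel₀ hpz.ne' h1
    omega
  obtain ⟨Λ, hΛ⟩ := interp_bound p r k u huinj
  set s1 : ℚ_[p] := ((TT 0 K : ℚ) : ℚ_[p]) with hs1
  set s0 : ℚ_[p] := ((TT 0 k : ℚ) : ℚ_[p]) with hs0
  set m0 : ℤ := ∏ i ∈ range (k+1), ((p:ℤ)*(2*(i:ℤ)+1)) with hm0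
  set d0 : ℤ := ∏ l ∈ range K, (2*(l:ℤ)+2) with hd0
  set A : ℝ := ‖((p:ℤ)^r : ℚ_[p])‖ * ‖(m0 : ℚ_[p])‖^4 with hA
  -- Q_T
  set Q : ℕ → ℕ := fun T => (p^T-1)/4 with hQ
  have hQT : ∀ T, p^T = 4*(Q T)+1 := by
    intro T
    have := pow_mod_four p hp4 T
    simp only [hQ]
    omega
  set γ : ℕ → ℤ := fun T => (mg p (3*(Q T)+1))^4 with hγ
  set P : ℕ → ℤ := fun T => Pint p 0 (Q T) with hP
  have hd0ne : (d0 : ℚ_[p]) ≠ 0 := by
    have : d0 ≠ 0 := by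
      rw [hd0]
      apply prod_ne_zero_iff.mpr
      intro l _
      positivity
    exact_mod_cast this
  have hbound : ∀ T : ℕ, 1 ≤ T → ‖(d0 : ℚ_[p])‖^4 * ‖((γ T : ℤ) : ℚ_[p]) * ((P T : ℤ) : ℚ_[p]) * s1
      + p * ((γ T : ℤ) : ℚ_[p]) * s0‖ ≤ max A ((p:ℝ)^(-(T:ℤ)) * Λ) := by
    intro T hT
    obtain ⟨E0, hE0⟩ := EE_content p k K (Q T) r hr hk hK
    have hb := hΛ T (EE p k K (Q T)) E0 hE0 (by
      intro i hi
      have hi' : i ≤ k := by simpa [Nat.lt_succ_iff] using hi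
      have := node_dvd p hp4 k K (Q T) T hKk hT (hQT T) i hi'
      push_cast at this
      exact this)
    have hE := eval_EE p hp1 k K (Q T) hKk 0 (by
      intro l
      rw [sub_zero]
      positivity)
    have hE' : (((EE p k K (Q T)).eval 0 : ℤ) : ℚ_[p])
        = 4^K * (d0 : ℚ_[p])^4 * (((P T : ℤ) : ℚ_[p]) * s1 + p * s0) := by
      have := congrArg (fun z : ℚ => (z : ℚ_[p])) hE
      have e1 : ∏ l ∈ range K, ((2*(l:ℚ)+2)^4 - ((0:ℤ):ℚ)) = ((d0 : ℤ) : ℚ)^4 := by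
        rw [hd0]
        push_cast
        rw [← prod_pow]
        apply prod_congr rfl
        intro l _
        ring
      rw [e1] at this
      simp only [Int.cast_zero, zero_div] at this
      push_cast at this
      rw [this]
    have hm : (∏ i ∈ range (k+1), (u i) : ℤ) = m0^4 := by
      rw [hm0, ← prod_pow]
    rw [hm] at hb
    have hb2 : ‖(((EE p k K (Q T)).eval 0 : ℤ) : ℚ_[p])‖ ≤ max A ((p:ℝ)^(-(T:ℤ)) * Λ) := by
      refine hb.trans (le_of_eq ?_)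
      rw [hA]
      push_cast
      rw [norm_pow (m0 : ℚ_[p])]
    refine le_trans ?_ hb2
    rw [hE', norm_mul, norm_mul, norm_pow, norm_pow]
    have h4 : ‖(4 : ℚ_[p])‖ = 1 := by
      have : ‖((4:ℤ) : ℚ_[p])‖ = 1 := by
        apply le_antisymm (Padic.norm_int_le_one 4)
        by_contra hlt
        push Not at hlt
        have hd := Padic.norm_intCast_lt_one_iff.mp hlt
        have h' : p ∣ 2^2 := by norm_num; exact_mod_cast hd
        have := (Nat.prime_dvd_prime_iff_eq hp.out Nat.prime_two).mp (hp.out.dvd_of_dvd_pow h')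
        omega
      simpa using this
    rw [h4, one_pow, one_mul]
    apply mul_le_mul_of_nonneg_left _ (by positivity)
    have e : ((γ T : ℤ) : ℚ_[p]) * ((P T : ℤ) : ℚ_[p]) * s1 + p * ((γ T : ℤ) : ℚ_[p]) * s0
        = ((γ T : ℤ) : ℚ_[p]) * (((P T : ℤ) : ℚ_[p]) * s1 + p * s0) := by ring
    rw [e, norm_mul]
    have hg : ‖((γ T : ℤ) : ℚ_[p])‖ ≤ 1 := Padic.norm_int_le_one _
    calc ‖((γ T : ℤ) : ℚ_[p])‖ * ‖((P T : ℤ) : ℚ_[p]) * s1 + p * s0‖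
        ≤ 1 * ‖((P T : ℤ) : ℚ_[p]) * s1 + p * s0‖ := mul_le_mul_of_nonneg_right hg (norm_nonneg _)
      _ = _ := one_mul _
  -- limits
  have hpow : Tendsto (fun T : ℕ => (p:ℝ)^(-(T:ℤ))) atTop (𝓝 0) := by
    have : (fun k : ℕ => (p:ℝ)^(-(k:ℤ))) = fun k : ℕ => ((p:ℝ)⁻¹)^k := by
      funext k
      rw [zpow_neg, zpow_natCast, inv_pow]
    rw [this]
    exact tendsto_pow_atTop_nhds_zero_of_lt_one (by positivity) (inv_lt_one_of_one_lt₀ hpr1)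
  have hlim1 : Tendsto (fun T => ((γ T : ℤ) : ℚ_[p]) * ((P T : ℤ) : ℚ_[p])) atTop (𝓝 1) := by
    rw [tendsto_iff_norm_sub_tendsto_zero]
    apply squeeze_zero' (Eventually.of_forall (fun _ => norm_nonneg _)) _ hpow
    filter_upwards [eventually_ge_atTop 1] with T hT
    have := gamma_P p hp4 T hT (Q T) (hQT T)
    have h2 := (Padic.norm_int_le_pow_iff_dvd (p := p) _ T).mpr (by exact_mod_cast this)
    push_cast at h2
    simp only [hγ, hP]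
    push_cast
    exact h2
  have hlim2 : Tendsto (fun T => ((γ T : ℤ) : ℚ_[p])) atTop (𝓝 (((G x : ℤ_[p]) : ℚ_[p])^4)) := by
    have ht : Tendsto (fun T => ((3*(Q T)+1 : ℕ) : ℤ_[p])) atTop (𝓝 x) := by
      rw [tendsto_iff_norm_sub_tendsto_zero]
      apply squeeze_zero (fun _ => norm_nonneg _) _ hpow
      intro T
      have h4 : (4:ℤ_[p]) * (((3*(Q T)+1 : ℕ) : ℤ_[p]) - x) = 3 * (p:ℤ_[p])^T := by
        have hq := congrArg (fun n : ℕ => (n : ℤ_[p])) (hQT T)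
        push_cast at hq ⊢
        rw [hq]
        linear_combination -hx
      have h5 : ((3*(Q T)+1 : ℕ) : ℤ_[p]) - x = (3 * x) * (p:ℤ_[p])^T := by
        linear_combination x * h4 - (((3*(Q T)+1 : ℕ) : ℤ_[p]) - x) * hx
      rw [h5, norm_mul, PadicInt.norm_p_pow]
      have : ‖3*x‖ ≤ 1 := PadicInt.norm_le_one _
      have hpp : (0:ℝ) ≤ (p:ℝ)^(-(T:ℤ)) := zpow_nonneg hp0.le _
      nlinarith
    have h1 := (hc.tendsto x).comp ht
    have h2 : Tendsto (fun T => ((G ((3*(Q T)+1 : ℕ) : ℤ_[p]) : ℤ_[p]) : ℚ_[p])) atTop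
        (𝓝 ((G x : ℤ_[p]) : ℚ_[p])) := by
      have hcoe : Continuous (fun z : ℤ_[p] => (z : ℚ_[p])) := continuous_subtype_val
      exact (hcoe.tendsto _).comp h1
    have h3 := h2.pow 4
    apply h3.congr
    intro T
    rw [hv _ (by omega)]
    simp only [hγ]
    push_cast
    rfl
  have hlimL : Tendsto (fun T => ‖(d0 : ℚ_[p])‖^4 * ‖((γ T : ℤ) : ℚ_[p]) * ((P T : ℤ) : ℚ_[p]) * s1
      + p * ((γ T : ℤ) : ℚ_[p]) * s0‖) atTop
      (𝓝 (‖(d0 : ℚ_[p])‖^4 * ‖1 * s1 + p * (((G x : ℤ_[p]) : ℚ_[p])^4) * s0‖)) := by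
    apply Tendsto.const_mul
    apply Tendsto.norm
    exact (hlim1.mul_const s1).add ((hlim2.const_mul (p:ℚ_[p])).mul_const s0)
  have hA0 : 0 ≤ A := by rw [hA]; positivity
  have hlimR : Tendsto (fun T : ℕ => max A ((p:ℝ)^(-(T:ℤ)) * Λ)) atTop (𝓝 (max A (0 * Λ))) :=
    tendsto_const_nhds.max (hpow.mul_const Λ)
  have hfin : ‖(d0 : ℚ_[p])‖^4 * ‖1 * s1 + p * (((G x : ℤ_[p]) : ℚ_[p])^4) * s0‖ ≤ max A (0*Λ) := by
    apply le_of_tendsto_of_tendsto hlimL hlimR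
    filter_upwards [eventually_ge_atTop 1] with T hT
    exact hbound T hT
  rw [zero_mul, max_eq_left hA0, one_mul] at hfin
  have hm := norm_m0 p hp2 k K r hr hk hKk
  rw [← hm0, ← hd0] at hm
  have hd0pos : 0 < ‖(d0 : ℚ_[p])‖ := norm_pos_iff.mpr hd0ne
  have hA2 : A ≤ (p:ℝ)^(-((5*r:ℕ):ℤ)) * ‖(d0 : ℚ_[p])‖^4 := by
    rw [hA]
    have e1 : ‖((p:ℤ)^r : ℚ_[p])‖ = (p:ℝ)^(-(r:ℤ)) := by
      push_cast
      rw [norm_pow, Padic.norm_p, zpow_neg, zpow_natCast, inv_pow]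
    rw [e1]
    have e2 : ‖(m0 : ℚ_[p])‖^4 ≤ ((p:ℝ)^(-(r:ℤ)) * ‖(d0 : ℚ_[p])‖)^4 :=
      pow_le_pow_left₀ (norm_nonneg _) hm 4
    have e3 : (p:ℝ)^(-(r:ℤ)) * ((p:ℝ)^(-(r:ℤ)) * ‖(d0 : ℚ_[p])‖)^4
        = (p:ℝ)^(-((5*r:ℕ):ℤ)) * ‖(d0 : ℚ_[p])‖^4 := by
      have : (p:ℝ)^(-((5*r:ℕ):ℤ)) = ((p:ℝ)^(-(r:ℤ)))^5 := by
        rw [← zpow_natCast, ← zpow_mul]
        congr 1
        push_cast
        ring
      rw [this]
      ring
    rw [← e3]
    exact mul_le_mul_of_nonneg_left e2 (zpow_nonneg hp0.le _)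
  have hfin2 := hfin.trans hA2
  rw [mul_comm] at hfin2
  exact le_of_mul_le_mul_right hfin2 (by positivity)

end Pool.Agent.Swisher
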