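import Pool.Agent.Swisher.Wilson

set_option autoImplicit false
set_option linter.unusedSectionVars false

open Finset

namespace Pool.Agent.Swisher

/-- block decomposition of a periodic product -/
lemma prod_blocks {M : Type*} [CommMonoid M] (h : ℕ → M) (p : ℕ) (hper : ∀ j, h (j + p) = h j)
    (a b : ℕ) : ∏ j ∈ range (p*a+b), h j = (∏ j ∈ range p, h j)^a * ∏ j ∈ range b, h j := by
  induction a with
  | zero => simp
  | succ a ih =>
    have e : p*(a+1)+b = p + (p*a+b) := by ring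
    rw [e, prod_range_add]
    have : ∏ x ∈ range (p*a+b), h (p+x) = ∏ x ∈ range (p*a+b), h x := by
      apply prod_congr rfl
      intro x _
      rw [add_comm, hper]
    rw [this, ih, pow_succ]
    rw [← mul_assoc]
    congr 1
    exact mul_comm _ _

lemma prod_range_zmod {M : Type*} [CommMonoid M] (n : ℕ) [NeZero n] (h : ZMod n → M) :
    ∏ j ∈ range n, h (j : ZMod n) = ∏ x : ZMod n, h x := by
  apply prod_bij (fun (j : ℕ) _ => (j : ZMod n))
  · intro a _; exact mem_univ _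
  · intro a ha b hb hab
    simp only [mem_range] at ha hb
    have := (ZMod.natCast_eq_natCast_iff' a b n).mp hab
    rwa [Nat.mod_eq_of_lt ha, Nat.mod_eq_of_lt hb] at this
  · intro b _
    exact ⟨b.val, by simpa using ZMod.val_lt b, ZMod.natCast_zmod_val b⟩
  · intro a _; rfl

section units

variable {R : Type*} [CommRing R] [Fintype R] [DecidableEq R]

open Classical in
/-- `x` if a unit, else `1` -/
noncomputable def GG (x : R) : R := if IsUnit x then x else 1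

lemma prod_GG : ∏ x : R, GG x = ∏ u : Rˣ, (u : R) := by
  classical
  unfold GG
  rw [prod_ite, prod_const_one, mul_one]
  symm
  apply prod_bij (fun (u : Rˣ) _ => (u : R))
  · intro u _; simp
  · intro a _ b _ hab; exact Units.ext hab
  · intro b hb
    simp only [mem_filter, mem_univ, true_and] at hb
    obtain ⟨u, rfl⟩ := hb
    exact ⟨u, mem_univ _, rfl⟩
  · intro a _; rfl

lemma prod_GG_sq : (∏ x : R, GG x)^2 = 1 := by
  classical
  rw [prod_GG]
  have h : ∏ u : Rˣ, u = ∏ u : Rˣ, u⁻¹ := Fintype.prod_equiv (Equiv.inv Rˣ) _ _ (by simp)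
  have h2 : (∏ u : Rˣ, u) * (∏ u : Rˣ, u) = 1 := by
    nth_rewrite 2 [h]
    rw [← prod_mul_distrib]
    simp
  have h3 : ∏ u : Rˣ, (u : R) = ((∏ u : Rˣ, u : Rˣ) : R) := by
    simp
  rw [h3, pow_two, ← Units.val_mul, h2, Units.val_one]

open Classical in
/-- `x^2+v^2` if `x` is a unit, else `1` -/
noncomputable def FF (v x : R) : R := if IsUnit x then x^2+v^2 else 1

lemma isUnit_add_nil (x n : R) (hn : IsNilpotent n) : IsUnit (x + n) ↔ IsUnit x := by
  constructor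
  · intro h
    have := hn.neg.isUnit_add_left_of_commute h (Commute.all _ _)
    simpa using this
  · intro h
    exact hn.isUnit_add_left_of_commute h (Commute.all _ _)

lemma prod_FF (v I : R) (hI : I^2 = -1) (hv : IsNilpotent v) : ∏ x : R, FF v x = 1 := by
  classical
  have h : ∀ x : R, FF v x = GG (x + I*v) * GG (x + (-(I*v))) := by
    intro x
    have hn : IsNilpotent (I*v) := (Commute.all I v).isNilpotent_mul_left hv
    unfold FF GG
    by_cases hx : IsUnit x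
    · rw [if_pos hx, if_pos ((isUnit_add_nil x _ hn).mpr hx),
        if_pos ((isUnit_add_nil x _ hn.neg).mpr hx)]
      linear_combination (v^2)*hI
    · rw [if_neg hx, if_neg (fun h => hx ((isUnit_add_nil x _ hn).mp h)),
        if_neg (fun h => hx ((isUnit_add_nil x _ hn.neg).mp h))]
      simp
  have h1 : ∀ c : R, ∏ x : R, GG (x + c) = ∏ x : R, GG x := by
    intro c
    exact Fintype.prod_equiv (Equiv.addRight c) _ _ (fun x => rfl)
  simp only [h]
  rw [prod_mul_distrib, h1, h1, ← pow_two, prod_GG_sq]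

end units

section arith

variable (p : ℕ) [hp : Fact p.Prime]

lemma isUnit_zmod_iff (T : ℕ) (hT : 1 ≤ T) (s : ℤ) :
    IsUnit (s : ZMod (p^T)) ↔ ¬ ((p:ℤ) ∣ s) := by
  rw [ZMod.coe_int_isUnit_iff_isCoprime]
  have hp' : Prime (p:ℤ) := Nat.prime_iff_prime_int.mp hp.out
  push_cast
  rw [IsCoprime.pow_left_iff (by omega)]
  exact (Irreducible.coprime_iff_not_dvd hp'.irreducible)

/-- a square root of one congruent to minus one mod `p` is minus one -/
lemma eq_neg_one (hp2 : p ≠ 2) (T : ℕ) (hT : 1 ≤ T) (n : ℤ)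
    (h1 : (n : ZMod (p^T))^2 = 1) (h2 : (n : ZMod p) = -1) : (n : ZMod (p^T)) = -1 := by
  have hu : IsUnit ((n - 1 : ℤ) : ZMod (p^T)) := by
    rw [isUnit_zmod_iff p T hT]
    intro hd
    have h3 : ((n - 1 : ℤ) : ZMod p) = 0 := (ZMod.intCast_zmod_eq_zero_iff_dvd _ _).mpr hd
    push_cast at h3
    rw [h2] at h3
    have h4 : ((2:ℕ) : ZMod p) = 0 := by push_cast; linear_combination -h3
    have h5 := (ZMod.natCast_eq_zero_iff _ _).mp h4
    have := (Nat.prime_dvd_prime_iff_eq hp.out Nat.prime_two).mp h5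
    exact hp2 this
  have h3 : ((n - 1 : ℤ) : ZMod (p^T)) * ((n : ZMod (p^T)) + 1) = 0 := by
    push_cast
    linear_combination h1
  have h4 := (hu.mul_right_eq_zero).mp h3
  linear_combination h4

lemma half_factorial_sq (m : ℕ) (hm : p = 2*m+1) (hme : Even m) :
    ((∏ i ∈ range m, ((i:ZMod p)+1)))^2 = -1 := by
  have hw := ZMod.wilsons_lemma p
  have h1 : ((p-1).factorial : ZMod p) = ∏ i ∈ range (2*m), ((i:ZMod p)+1) := by
    rw [show p - 1 = 2*m by omega, ← prod_range_add_one_eq_factorial]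
    push_cast
    rfl
  rw [h1, two_mul, prod_range_add] at hw
  have h2 : ∏ x ∈ range m, (((m+x:ℕ):ZMod p)+1) = ∏ x ∈ range m, (-1 * ((x:ZMod p)+1)) := by
    rw [← prod_range_reflect]
    apply prod_congr rfl
    intro x hx
    have hx' : x < m := by simpa using hx
    have e : m + (m - 1 - x) = p - (x+2) := by omega
    rw [e]
    have e2 : x + 2 ≤ p := by omega
    rw [Nat.cast_sub e2]
    simp
    ring
  rw [h2, prod_mul_distrib, prod_const, card_range, hme.neg_one_pow, one_mul] at hw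
  rw [pow_two, hw]

variable (hp4 : p % 4 = 1)

include hp4

lemma exists_I (T : ℕ) : ∃ I : ZMod (p^T), I^2 = -1 := by
  rcases Nat.eq_zero_or_pos T with hT | hT
  · subst hT
    refine ⟨0, ?_⟩
    have : Subsingleton (ZMod (p^0)) := by
      rw [pow_zero]; infer_instance
    exact Subsingleton.elim _ _
  · have h1 : IsSquare (-1 : ZMod p) := ZMod.exists_sq_eq_neg_one_iff.mpr (by omega)
    obtain ⟨a, ha⟩ := h1
    have h2 : ((a.val : ℤ) : ZMod p) = a := by simp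
    have h3 : (p:ℤ) ∣ ((a.val:ℤ)^2 - (-1)) := by
      rw [← ZMod.intCast_zmod_eq_zero_iff_dvd]
      push_cast
      simp
      rw [pow_two, ← ha]
      ring
    have h4 := dvd_sub_pow_of_dvd_sub (p := p) h3 (T-1)
    have h5 : T - 1 + 1 = T := by omega
    rw [h5] at h4
    have hodd : Odd (p^(T-1)) := by
      apply Odd.pow
      rw [Nat.odd_iff]; omega
    rw [hodd.neg_one_pow] at h4
    refine ⟨((a.val:ℤ)^(p^(T-1)) : ℤ), ?_⟩
    have h6 : ((((a.val:ℤ)^2)^(p^(T-1)) - (-1) : ℤ) : ZMod (p^T)) = 0 := by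
      rw [ZMod.intCast_zmod_eq_zero_iff_dvd]
      exact_mod_cast h4
    have h7 : (((a.val:ℤ)^2)^(p^(T-1)) : ℤ) = ((a.val:ℤ)^(p^(T-1)))^2 := by
      rw [← pow_mul, ← pow_mul, mul_comm]
    rw [h7] at h6
    push_cast at h6 ⊢
    linear_combination h6

/-- the function `s ↦ s^2+V^2` away from multiples of `p` -/
def fV (V : ℤ) (T : ℕ) (s : ℤ) : ZMod (p^T) :=
  if (p:ℤ) ∣ s then 1 else (s : ZMod (p^T))^2 + (V : ZMod (p^T))^2

omit hp4 in
lemma fV_eq_FF (V : ℤ) (T : ℕ) (hT : 1 ≤ T) (s : ℤ) :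
    fV p V T s = haveI : NeZero (p^T) := ⟨pow_ne_zero _ hp.out.ne_zero⟩
      FF (V : ZMod (p^T)) (s : ZMod (p^T)) := by
  unfold fV FF
  have h := isUnit_zmod_iff p T hT s
  by_cases hd : (p:ℤ) ∣ s
  · rw [if_pos hd, if_neg (fun hu => (h.mp hu) hd)]
  · rw [if_neg hd, if_pos (h.mpr hd)]

omit hp4 in
lemma fV_neg (V : ℤ) (T : ℕ) (s : ℤ) : fV p V T (-s) = fV p V T s := by
  unfold fV
  by_cases hd : (p:ℤ) ∣ s
  · rw [if_pos hd, if_pos (dvd_neg.mpr hd)]
  · rw [if_neg hd, if_neg (fun h => hd (dvd_neg.mp h))]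
    push_cast
    ring

omit hp4 in
lemma fV_per (V : ℤ) (T : ℕ) (hT : 1 ≤ T) (Q : ℕ) (hQ : p^T = 4*Q+1) (s : ℤ) :
    fV p V T (s + (4*(Q:ℤ)+1)) = fV p V T s := by
  unfold fV
  have h1 : (4*(Q:ℤ)+1) = ((p^T : ℕ) : ℤ) := by rw [hQ]; push_cast; ring
  rw [h1]
  have h2 : (p:ℤ) ∣ ((p^T : ℕ) : ℤ) := by
    exact_mod_cast dvd_pow_self p (by omega)
  have h3 : ((((p^T : ℕ) : ℤ)) : ZMod (p^T)) = 0 := by
    rw [ZMod.intCast_zmod_eq_zero_iff_dvd]
  rw [Int.cast_add, h3, add_zero]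
  by_cases hd : (p:ℤ) ∣ s
  · rw [if_pos hd, if_pos ((dvd_add_left h2).mpr hd)]
  · rw [if_neg hd, if_neg (fun h => hd ((dvd_add_left h2).mp h))]

omit hp4 in
lemma fV_zero (V : ℤ) (T : ℕ) : fV p V T 0 = 1 := by simp [fV]

/-- the integer lift of the constant -/
def Cint (V : ℤ) (Q : ℕ) : ℤ := ∏ i ∈ range (2*Q+1), (if (p:ℤ) ∣ (4*(i:ℤ)) then 1
  else (4*(i:ℤ))^2 + V^2)

omit hp hp4 in
lemma Cint_cast (V : ℤ) (T Q : ℕ) : ((Cint p V Q : ℤ) : ZMod (p^T)) = Pq (fV p V T) Q 0 := by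
  unfold Cint Pq fV
  push_cast
  apply prod_congr rfl
  intro i _
  rw [zero_add]
  split_ifs <;> ring

lemma C_sq (V : ℤ) (hV : (p:ℤ) ∣ V) (T : ℕ) (hT : 1 ≤ T) (Q : ℕ) (hQ : p^T = 4*Q+1) :
    ((Cint p V Q : ℤ) : ZMod (p^T))^2 = 1 := by
  have : NeZero (p^T) := ⟨pow_ne_zero _ hp.out.ne_zero⟩
  rw [Cint_cast p V T Q, pow_two]
  have h1 := Pq_refl (fV p V T) Q (fV_per p V T hT Q hQ) (fV_neg p V T)
  nth_rewrite 2 [← h1]
  have h2 : Pq (fV p V T) Q 0 * Pq (fV p V T) Q 2 = ∏ j ∈ range (p^T+1), fV p V T (2*(j:ℤ)) := by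
    rw [show p^T+1 = 2*(2*Q+1) by omega]
    unfold Pq
    rw [← prod_mul_distrib]
    generalize 2*Q+1 = n
    induction n with
    | zero => simp
    | succ n ih =>
      rw [prod_range_succ, ih, show 2*(n+1) = 2*n+1+1 by ring, prod_range_succ, prod_range_succ]
      rw [mul_assoc]
      congr 3
      · push_cast; ring
      · push_cast; ring
  rw [h2, prod_range_succ]
  have h3 : fV p V T (2*((p^T:ℕ):ℤ)) = 1 := by
    unfold fV
    rw [if_pos]
    exact Dvd.dvd.mul_left (by exact_mod_cast dvd_pow_self p (by omega)) 2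
  rw [h3, mul_one]
  have h4 : ∏ j ∈ range (p^T), fV p V T (2*(j:ℤ))
      = ∏ j ∈ range (p^T), FF (V : ZMod (p^T)) (2*(j:ZMod (p^T))) := by
    apply prod_congr rfl
    intro j _
    rw [fV_eq_FF p V T hT]
    push_cast
    rfl
  rw [h4, prod_range_zmod (p^T) (fun x => FF (V : ZMod (p^T)) (2*x))]
  have h2u : IsUnit ((2:ℤ) : ZMod (p^T)) := by
    rw [isUnit_zmod_iff p T hT]
    intro h
    have h' : p ∣ 2 := by exact_mod_cast h
    have := (Nat.prime_dvd_prime_iff_eq hp.out Nat.prime_two).mp h'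
    omega
  obtain ⟨u, hu⟩ := h2u
  have h5 : ∏ x : ZMod (p^T), FF (V : ZMod (p^T)) (2*x) = ∏ x : ZMod (p^T), FF (V : ZMod (p^T)) x := by
    apply Fintype.prod_equiv (Units.mulLeft u)
    intro x
    simp only [Units.mulLeft_apply]
    rw [hu]
    norm_num
  rw [h5]
  obtain ⟨I, hI⟩ := exists_I p hp4 T
  apply prod_FF _ I hI
  refine ⟨T, ?_⟩
  obtain ⟨w, rfl⟩ := hV
  push_cast
  rw [mul_pow]
  have : ((p:ZMod (p^T)))^T = 0 := by
    have h := ZMod.natCast_self (p^T)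
    push_cast at h
    exact h
  rw [this, zero_mul]

lemma C_modp (V : ℤ) (hV : (p:ℤ) ∣ V) (T : ℕ) (hT : 1 ≤ T) (Q : ℕ) (hQ : p^T = 4*Q+1) :
    ((Cint p V Q : ℤ) : ZMod p) = -1 := by
  obtain ⟨m, hm⟩ : ∃ m, p = 2*m+1 := ⟨(p-1)/2, by omega⟩
  have hme : Even m := by rw [Nat.even_iff]; omega
  set h : ℕ → ZMod p := fun i => if (p:ℤ) ∣ (4*(i:ℤ)) then 1 else (4*(i:ZMod p))^2 with hh
  have hV0 : (V : ZMod p) = 0 := (ZMod.intCast_zmod_eq_zero_iff_dvd _ _).mpr hV
  have h1 : ((Cint p V Q : ℤ) : ZMod p) = ∏ i ∈ range (2*Q+1), h i := by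
    unfold Cint
    push_cast
    apply prod_congr rfl
    intro i _
    rw [hh]
    simp only
    split_ifs
    · simp
    · rw [hV0]; ring
  rw [h1]
  have hper : ∀ j, h (j+p) = h j := by
    intro j
    rw [hh]
    simp only
    have e : (4*((j+p:ℕ):ℤ)) = 4*(j:ℤ) + (p:ℤ)*4 := by push_cast; ring
    rw [e]
    by_cases hd : (p:ℤ) ∣ 4*(j:ℤ)
    · rw [if_pos hd, if_pos ((dvd_add_left (dvd_mul_right _ _)).mpr hd)]
    · rw [if_neg hd, if_neg (fun h => hd ((dvd_add_left (dvd_mul_right _ _)).mp h))]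
      push_cast
      simp
  obtain ⟨a, ha⟩ : ∃ a, p^(T-1) = 2*a+1 := by
    have : Odd (p^(T-1)) := by
      apply Odd.pow
      rw [Nat.odd_iff]; omega
    exact this
  have hpT : p^T = p * p^(T-1) := by
    rw [← pow_succ']; congr 1; omega
  have e : 2*Q+1 = p*a+(m+1) := by
    have h3 : p^T = 2*(p*a) + p := by rw [hpT, ha]; ring
    omega
  rw [e, prod_blocks h p hper]
  have hodd4 : ∀ i : ℕ, i < p → 1 ≤ i → ¬ ((p:ℤ) ∣ (4*(i:ℤ))) := by
    intro i hi hi1 hd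
    have hd' : p ∣ 4 * i := by exact_mod_cast hd
    rcases (Nat.Prime.dvd_mul hp.out).mp hd' with h | h
    · have h22 : p ∣ 2^2 := by norm_num; exact h
      have := (Nat.prime_dvd_prime_iff_eq hp.out Nat.prime_two).mp (hp.out.dvd_of_dvd_pow h22)
      omega
    · have := Nat.le_of_dvd (by omega) h
      omega
  have h0 : h 0 = 1 := by rw [hh]; simp
  have hblock : ∀ n, n + 1 ≤ p → ∏ j ∈ range (n+1), h j
      = ((4:ZMod p)^n * ∏ i ∈ range n, ((i:ZMod p)+1))^2 := by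
    intro n hn
    rw [prod_range_succ', h0, mul_one]
    have h4n : (4:ZMod p)^n = ∏ _i ∈ range n, (4:ZMod p) := by simp
    rw [h4n, ← prod_mul_distrib, ← prod_pow]
    apply prod_congr rfl
    intro i hi
    have hi' : i < n := by simpa using hi
    rw [hh]
    simp only
    rw [if_neg (hodd4 (i+1) (by omega) (by omega))]
    push_cast
    ring
  have h4ne : (4:ZMod p) ≠ 0 := by
    intro h4
    have h4' : ((4:ℕ) : ZMod p) = 0 := by exact_mod_cast h4
    have h5 := (ZMod.natCast_eq_zero_iff _ _).mp h4'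
    have h22 : p ∣ 2^2 := by norm_num; exact h5
    have := (Nat.prime_dvd_prime_iff_eq hp.out Nat.prime_two).mp (hp.out.dvd_of_dvd_pow h22)
    omega
  have hfull : ∏ j ∈ range p, h j = 1 := by
    have e1 : p = (p-1) + 1 := by omega
    have := hblock (p-1) (by omega)
    rw [← e1] at this
    rw [this, ZMod.pow_card_sub_one_eq_one h4ne, one_mul]
    have hw := ZMod.wilsons_lemma p
    rw [← prod_range_add_one_eq_factorial] at hw
    push_cast at hw
    rw [hw]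
    norm_num
  rw [hfull, one_pow, one_mul, hblock m (by omega), mul_pow, half_factorial_sq p m hm hme]
  have : ((4:ZMod p)^m)^2 = 1 := by
    rw [← pow_mul, mul_comm, show 2*m = p-1 by omega, ZMod.pow_card_sub_one_eq_one h4ne]
  rw [this]
  ring

lemma C_eq (V : ℤ) (hV : (p:ℤ) ∣ V) (T : ℕ) (hT : 1 ≤ T) (Q : ℕ) (hQ : p^T = 4*Q+1) :
    Pq (fV p V T) Q 0 = -1 := by
  rw [← Cint_cast]
  exact eq_neg_one p (by omega) T hT _ (C_sq p hp4 V hV T hT Q hQ) (C_modp p hp4 V hV T hT Q hQ)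

/-- the integer product `P(V^4)` -/
def Pint (U : ℤ) (Q : ℕ) : ℤ := ∏ i ∈ range Q, (if p ∣ (i+1) then 1 else 256*((i:ℤ)+1)^4 + 4*U)

omit hp4 in
lemma Pq_center (V : ℤ) (hV : (p:ℤ) ∣ V) (T : ℕ) (hT : 1 ≤ T) (Q : ℕ) (hQ : p^T = 4*Q+1)
    (hp2 : p ≠ 2) : ((Pint p (V^4) Q : ℤ) : ZMod (p^T)) = Pq (fV p V T) Q (V+1) := by
  have hper := fV_per p V T hT Q hQ
  have h1 : Pq (fV p V T) Q (V+1) = (∏ i ∈ range Q, fV p V T (V - 4*((i:ℤ)+1)))
      * (∏ i ∈ range Q, fV p V T (V + 4*((i:ℤ)+1))) := by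
    unfold Pq
    rw [show 2*Q+1 = Q + (Q+1) by ring, prod_range_add]
    congr 1
    · rw [← prod_range_reflect]
      apply prod_congr rfl
      intro i hi
      have hi' : i < Q := by simpa using hi
      have e : ((Q-1-i : ℕ) : ℤ) = Q - 1 - i := by omega
      rw [e]
      have : V + 1 + 4*((Q:ℤ) - 1 - i) = (V - 4*((i:ℤ)+1)) + (4*(Q:ℤ)+1) := by ring
      rw [this, hper]
    · rw [prod_range_succ']
      have h0 : fV p V T (V + 1 + 4*((Q+0:ℕ):ℤ)) = 1 := by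
        have : V + 1 + 4*((Q+0:ℕ):ℤ) = V + (4*(Q:ℤ)+1) := by push_cast; ring
        rw [this, hper]
        unfold fV
        rw [if_pos hV]
      rw [h0, mul_one]
      apply prod_congr rfl
      intro i _
      have : V + 1 + 4*((Q+(i+1):ℕ):ℤ) = (V + 4*((i:ℤ)+1)) + (4*(Q:ℤ)+1) := by push_cast; ring
      rw [this, hper]
  rw [h1, ← prod_mul_distrib]
  unfold Pint
  push_cast
  apply prod_congr rfl
  intro i _
  have hp' : Prime (p:ℤ) := Nat.prime_iff_prime_int.mp hp.out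
  have h4 : ∀ z : ℤ, (p:ℤ) ∣ 4*z → (p:ℤ) ∣ z := by
    intro z hz
    rcases hp'.dvd_or_dvd hz with h | h
    · exfalso
      have h22 : p ∣ 2^2 := by
        have : (p:ℤ) ∣ ((2^2:ℕ):ℤ) := by push_cast; exact h
        exact_mod_cast this
      have := (Nat.prime_dvd_prime_iff_eq hp.out Nat.prime_two).mp (hp.out.dvd_of_dvd_pow h22)
      exact hp2 this
    · exact h
  unfold fV
  by_cases hd : p ∣ i+1
  · have hd' : (p:ℤ) ∣ 4*((i:ℤ)+1) := by
      apply Dvd.dvd.mul_left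
      exact_mod_cast hd
    rw [if_pos hd, if_pos (dvd_sub hV hd'), if_pos (dvd_add hV hd'), one_mul]
  · have hd' : ¬ (p:ℤ) ∣ ((i:ℤ)+1) := by
      intro h; apply hd; exact_mod_cast h
    rw [if_neg hd, if_neg (fun h => hd' (h4 _ ((dvd_sub_right hV).mp h))),
      if_neg (fun h => hd' (h4 _ ((dvd_add_right hV).mp h)))]
    push_cast
    ring

/-- the function `j ↦ (2j)^2+V^2` away from multiples of `p` -/
def gV (V : ℤ) (j : ℕ) : ℤ := if p ∣ j then 1 else (2*(j:ℤ))^2 + V^2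

theorem P_rel (K : ℕ) (hV : (p:ℤ) ∣ (2*(K:ℤ)+1)) (T : ℕ) (hT : 1 ≤ T) (Q : ℕ)
    (hQ : p^T = 4*Q+1) :
    ((p^T : ℕ) : ℤ) ∣ Pint p ((2*(K:ℤ)+1)^4) Q * rN (gV p (2*(K:ℤ)+1)) K
      + rD (gV p (2*(K:ℤ)+1)) K := by
  have hp2 : p ≠ 2 := by omega
  rw [← ZMod.intCast_zmod_eq_zero_iff_dvd]
  rw [Int.cast_add, Int.cast_mul]
  have hg : ∀ j : ℕ, ((gV p (2*(K:ℤ)+1) j : ℤ) : ZMod (p^T)) = fV p (2*(K:ℤ)+1) T (2*(j:ℤ)) := by
    intro j
    have hp' : Prime (p:ℤ) := Nat.prime_iff_prime_int.mp hp.out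
    unfold gV fV
    by_cases hd : p ∣ j
    · have hd' : (p:ℤ) ∣ 2*(j:ℤ) := Dvd.dvd.mul_left (by exact_mod_cast hd) 2
      rw [if_pos hd, if_pos hd']
      simp
    · have hd' : ¬ (p:ℤ) ∣ 2*(j:ℤ) := by
        intro h
        rcases hp'.dvd_or_dvd h with h | h
        · have h22 : p ∣ 2 := by exact_mod_cast h
          exact hp2 ((Nat.prime_dvd_prime_iff_eq hp.out Nat.prime_two).mp h22)
        · exact hd (by exact_mod_cast h)
      rw [if_neg hd, if_neg hd']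
      push_cast
      ring
  have hN : ((rN (gV p (2*(K:ℤ)+1)) K : ℤ) : ZMod (p^T))
      = rN (fun j => fV p (2*(K:ℤ)+1) T (2*(j:ℤ))) K := by
    unfold rN
    rw [Int.cast_prod]
    exact prod_congr rfl (fun j _ => hg j)
  have hD : ((rD (gV p (2*(K:ℤ)+1)) K : ℤ) : ZMod (p^T))
      = rD (fun j => fV p (2*(K:ℤ)+1) T (2*(j:ℤ))) K := by
    unfold rD
    rw [Int.cast_prod]
    exact prod_congr rfl (fun j _ => hg j)
  rw [hN, hD, Pq_center p _ hV T hT Q hQ hp2]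
  have hm := Pq_main (fV p (2*(K:ℤ)+1) T) Q (fV_per p _ T hT Q hQ) (fV_neg p _ T)
    (fV_zero p _ T) K
  rw [C_eq p hp4 _ hV T hT Q hQ] at hm
  have e : (2*(K:ℤ)+1+1) = 2*(K:ℤ)+2 := by ring
  rw [e, hm]
  ring

end arith

end Pool.Agent.Swisher
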