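import Pool.Agent.Swisher.ClosedForm
import Pool.Agent.Swisher.WilsonArith

set_option autoImplicit false
set_option linter.unusedSectionVars false

open Finset

namespace Pool.Agent.Swisher

lemma om_rho (Y : ℚ) (hY : ∀ l : ℕ, (2*(l:ℚ)+2)^2 - Y ≠ 0) (K : ℕ) :
    om Y K * rD (fun j => (2*(j:ℚ))^2 - Y) K
      = rN (fun j => (2*(j:ℚ))^2 - Y) K * (if Even K then 1 else Y) := by
  induction K using Nat.twoStepInduction with
  | zero => simp [om_zero, rN_zero, rD_zero]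
  | one =>
    rw [om_one, rN_one, rD_one]
    have h := hY 0
    have h4 : 4 - Y ≠ 0 := by
      intro h0; apply h; push_cast; linear_combination h0
    have : (2*((1:ℕ):ℚ))^2 - Y = 4 - Y := by push_cast; ring
    rw [this, div_mul_cancel₀ _ h4]
    simp
  | more K ih _ =>
    rw [om_add_two, rN_add_two, rD_add_two]
    have h := hY (K+1)
    have h4 : (2*(K:ℚ)+4)^2 - Y ≠ 0 := by
      intro h0; apply h; push_cast; linear_combination h0
    have e2 : (2*((K+2:ℕ):ℚ))^2 - Y = (2*(K:ℚ)+4)^2 - Y := by push_cast; ring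
    have e1 : (2*((K+1:ℕ):ℚ))^2 - Y = (2*(K:ℚ)+2)^2 - Y := by push_cast; ring
    have hev : Even (K+2) ↔ Even K := by simp [Nat.even_add]
    simp only [hev]
    rw [e1, e2]
    have : om Y K * (((2*(K:ℚ)+2)^2 - Y) / ((2*(K:ℚ)+4)^2 - Y))
        * (rD (fun j => (2*(j:ℚ))^2 - Y) K * ((2*(K:ℚ)+4)^2 - Y))
        = (om Y K * rD (fun j => (2*(j:ℚ))^2 - Y) K) * ((2*(K:ℚ)+2)^2 - Y) := by
      field_simp
    rw [this, ih]
    ring

/-- the value `w_l`, `l = 2k+1` -/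
def ww (k : ℕ) : ℚ := (2*(k:ℚ)+1) * om (-(2*(k:ℚ)+1)^2) k

lemma rN_ne (g : ℕ → ℚ) (K : ℕ) (h : ∀ j, g j ≠ 0) : rN g K ≠ 0 :=
  prod_ne_zero_iff.mpr (fun j _ => h j)

lemma rD_ne (g : ℕ → ℚ) (K : ℕ) (h : ∀ j, g j ≠ 0) : rD g K ≠ 0 :=
  prod_ne_zero_iff.mpr (fun j _ => h j)

lemma pos_ne (K j : ℕ) : (2*(j:ℚ))^2 + (2*(K:ℚ)+1)^2 ≠ 0 := by positivity

theorem ww_rel (p k K : ℕ) (hp : p % 4 = 1) (hK : p * (2*k+1) = 2*K+1) :
    ww K * ((rD (gV p (2*(K:ℤ)+1)) K : ℤ) : ℚ)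
      = (p:ℚ) * ((rN (gV p (2*(K:ℤ)+1)) K : ℤ) : ℚ) * ww k := by
  have hpar : K % 2 = k % 2 := by
    obtain ⟨a, ha⟩ : ∃ a, p = 4*a+1 := ⟨p/4, by omega⟩
    subst ha
    have : 2*K+1 = 4*(a*(2*k+1)) + (2*k+1) := by rw [← hK]; ring
    omega
  have hev : Even K ↔ Even k := by rw [Nat.even_iff, Nat.even_iff, hpar]
  set V : ℚ := 2*(K:ℚ)+1 with hVdef
  set l : ℚ := 2*(k:ℚ)+1 with hldef
  have hVl : V = p * l := by
    rw [hVdef, hldef]; exact_mod_cast hK.symm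
  have hYV : ∀ j : ℕ, (2*(j:ℚ)+2)^2 - (-V^2) ≠ 0 := by
    intro j
    have : (0:ℚ) < (2*(j:ℚ)+2)^2 + V^2 := by positivity
    rw [sub_neg_eq_add]; exact this.ne'
  have hYl : ∀ j : ℕ, (2*(j:ℚ)+2)^2 - (-l^2) ≠ 0 := by
    intro j
    have : (0:ℚ) < (2*(j:ℚ)+2)^2 + l^2 := by positivity
    rw [sub_neg_eq_add]; exact this.ne'
  have h1 := om_rho (-V^2) hYV K
  have h2 := om_rho (-l^2) hYl k
  have hl0 : l ≠ 0 := by rw [hldef]; positivity
  have hp0 : (p:ℚ) ≠ 0 := by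
    have : p ≠ 0 := by omega
    exact_mod_cast this
  -- split
  have sN := rN_split (fun j => (2*(j:ℚ))^2 - (-V^2)) p (2*k+1) k (by omega) K rfl hK hpar
  have sD := rD_split (fun j => (2*(j:ℚ))^2 - (-V^2)) p (2*k+1) k (by omega) K rfl hK hpar
  have gN : rN (fun j => if p ∣ j then 1 else (2*(j:ℚ))^2 - (-V^2)) K
      = ((rN (gV p (2*(K:ℤ)+1)) K : ℤ) : ℚ) := by
    unfold rN
    rw [Int.cast_prod]
    apply prod_congr rfl
    intro j _
    unfold gV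
    by_cases hd : p ∣ j
    · simp only [if_pos hd, Int.cast_one]
    · simp only [if_neg hd]
      push_cast; rw [hVdef]; ring
  have gD : rD (fun j => if p ∣ j then 1 else (2*(j:ℚ))^2 - (-V^2)) K
      = ((rD (gV p (2*(K:ℤ)+1)) K : ℤ) : ℚ) := by
    unfold rD
    rw [Int.cast_prod]
    apply prod_congr rfl
    intro j _
    unfold gV
    by_cases hd : p ∣ j
    · simp only [if_pos hd, Int.cast_one]
    · simp only [if_neg hd]
      push_cast; rw [hVdef]; ring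
  have iN : rN (fun j => (2*((p*j:ℕ):ℚ))^2 - (-V^2)) k
      = rN (fun _ => (p:ℚ)^2) k * rN (fun j => (2*(j:ℚ))^2 - (-l^2)) k := by
    rw [← rN_mul]
    unfold rN
    apply prod_congr rfl
    intro j _
    rw [hVl]; push_cast; ring
  have iD : rD (fun j => (2*((p*j:ℕ):ℚ))^2 - (-V^2)) k
      = rD (fun _ => (p:ℚ)^2) k * rD (fun j => (2*(j:ℚ))^2 - (-l^2)) k := by
    rw [← rD_mul]
    unfold rD
    apply prod_congr rfl
    intro j _
    rw [hVl]; push_cast; ring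
  rw [gN, iN] at sN
  rw [gD, iD, rD_const] at sD
  rw [sN, sD] at h1
  have c1 : rN (fun _ => (p:ℚ)^2) k ≠ 0 := rN_ne _ _ (fun _ => pow_ne_zero _ hp0)
  have c2 : rD (fun j => (2*(j:ℚ))^2 - (-l^2)) k ≠ 0 := by
    apply rD_ne
    intro j
    rw [sub_neg_eq_add]
    exact pos_ne k j
  unfold ww
  rw [← hVdef, ← hldef]
  set A1 := rN (fun _ => (p:ℚ)^2) k
  set B1 := rN (fun j => (2*(j:ℚ))^2 - (-l^2)) k
  set B2 := rD (fun j => (2*(j:ℚ))^2 - (-l^2)) k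
  set N' := ((rN (gV p (2*(K:ℤ)+1)) K : ℤ) : ℚ)
  set D' := ((rD (gV p (2*(K:ℤ)+1)) K : ℤ) : ℚ)
  have key : om (-V^2) K * D' = N' * om (-l^2) k := by
    by_cases he : Even k
    · rw [if_pos he, mul_one] at h2
      rw [if_pos (hev.mpr he), if_pos he, mul_one, mul_one] at h1
      have hc : A1 * B2 ≠ 0 := mul_ne_zero c1 c2
      apply mul_right_cancel₀ hc
      linear_combination h1 - N' * A1 * h2
    · rw [if_neg he] at h2
      rw [if_neg (fun h => he (hev.mp h)), if_neg he] at h1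
      have hc : A1 * B2 * (p:ℚ)^2 ≠ 0 := mul_ne_zero (mul_ne_zero c1 c2) (pow_ne_zero _ hp0)
      apply mul_right_cancel₀ hc
      rw [hVl] at h1 ⊢
      linear_combination h1 - N' * A1 * (p:ℚ)^2 * h2
  rw [hVl] at key ⊢
  linear_combination p * l * key

end Pool.Agent.Swisher
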