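import Mathlib

set_option autoImplicit false
set_option linter.unusedSectionVars false

open Finset

namespace Pool.Agent.Swisher

section monoid

variable {M : Type*} [CommMonoid M]

/-- product over `1 ≤ j ≤ K` with `K + j` odd -/
def rN (g : ℕ → M) (K : ℕ) : M := ∏ j ∈ (Icc 1 K).filter (fun j => Odd (K + j)), g j

/-- product over `1 ≤ j ≤ K` with `K + j` even -/
def rD (g : ℕ → M) (K : ℕ) : M := ∏ j ∈ (Icc 1 K).filter (fun j => Even (K + j)), g j

lemma rN_zero (g : ℕ → M) : rN g 0 = 1 := by simp [rN]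
lemma rD_zero (g : ℕ → M) : rD g 0 = 1 := by simp [rD]

lemma rN_one (g : ℕ → M) : rN g 1 = 1 := by
  unfold rN
  apply prod_eq_one
  intro j hj
  simp only [mem_filter, mem_Icc] at hj
  obtain ⟨⟨h1, h2⟩, h3⟩ := hj
  have : j = 1 := le_antisymm h2 h1
  subst this
  exact absurd h3 (by decide)

lemma rD_one (g : ℕ → M) : rD g 1 = g 1 := by
  unfold rD
  have : (Icc 1 1).filter (fun j => Even (1 + j)) = {1} := by decide
  rw [this, prod_singleton]

lemma rN_add_two (g : ℕ → M) (K : ℕ) : rN g (K+2) = rN g K * g (K+1) := by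
  unfold rN
  have : (Icc 1 (K+2)).filter (fun j => Odd (K + 2 + j))
      = insert (K+1) ((Icc 1 K).filter (fun j => Odd (K + j))) := by
    ext j
    simp only [mem_filter, mem_Icc, mem_insert, Nat.odd_iff]
    omega
  rw [this, prod_insert (by simp), mul_comm]

lemma rD_add_two (g : ℕ → M) (K : ℕ) : rD g (K+2) = rD g K * g (K+2) := by
  unfold rD
  have : (Icc 1 (K+2)).filter (fun j => Even (K + 2 + j))
      = insert (K+2) ((Icc 1 K).filter (fun j => Even (K + j))) := by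
    ext j
    simp only [mem_filter, mem_Icc, mem_insert, Nat.even_iff]
    omega
  rw [this, prod_insert (by simp), mul_comm]

lemma rN_mul (g h : ℕ → M) (K : ℕ) : rN (fun j => g j * h j) K = rN g K * rN h K := by
  unfold rN; rw [prod_mul_distrib]

lemma rD_mul (g h : ℕ → M) (K : ℕ) : rD (fun j => g j * h j) K = rD g K * rD h K := by
  unfold rD; rw [prod_mul_distrib]

lemma rD_const (c : M) (K : ℕ) :
    rD (fun _ => c) K = rN (fun _ => c) K * (if Even K then 1 else c) := by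
  induction K using Nat.twoStepInduction with
  | zero => simp [rN_zero, rD_zero]
  | one => simp [rN_one, rD_one]
  | more K ih _ =>
    rw [rD_add_two, rN_add_two, ih]
    have : Even (K+2) ↔ Even K := by simp [Nat.even_add]
    simp only [this]
    exact mul_right_comm _ _ _

/-- splitting off the multiples of `p` in the odd product -/
lemma rN_split (g : ℕ → M) (p l k : ℕ) (hp : p % 2 = 1) (K : ℕ) (hl : l = 2*k+1)
    (hK : p * l = 2*K+1) (hpar : K % 2 = k % 2) :
    rN g K = rN (fun j => if p ∣ j then 1 else g j) K * rN (fun j => g (p*j)) k := by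
  have h1 : rN g K = rN (fun j => if p ∣ j then 1 else g j) K
      * rN (fun j => if p ∣ j then g j else 1) K := by
    rw [← rN_mul]
    unfold rN
    apply prod_congr rfl
    intro j _
    by_cases h : p ∣ j <;> simp [h]
  rw [h1]
  congr 1
  unfold rN
  rw [prod_ite, prod_const_one, mul_one, filter_filter]
  symm
  apply prod_bij (fun j _ => p * j)
  · intro j hj
    simp only [mem_filter, mem_Icc, Nat.odd_iff] at hj ⊢
    obtain ⟨⟨ha, hb⟩, hc⟩ := hj
    have hp0 : 1 ≤ p := by omega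
    have h3 : 1 ≤ p * j := Nat.mul_pos hp0 ha
    have h4 : 2 * (p * j) + p ≤ 2*K+1 := by
      rw [← hK, hl]; nlinarith
    refine ⟨⟨h3, by omega⟩, ?_, dvd_mul_right p j⟩
    have h5 : (p * j) % 2 = j % 2 := by
      rw [Nat.mul_mod, hp, one_mul, Nat.mod_mod]
    omega
  · intro a _ b _ hab
    exact Nat.eq_of_mul_eq_mul_left (by omega) hab
  · intro b hb
    simp only [mem_filter, mem_Icc, Nat.odd_iff] at hb
    obtain ⟨⟨ha, hb'⟩, hc, ⟨j, rfl⟩⟩ := hb
    refine ⟨j, ?_, rfl⟩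
    simp only [mem_filter, mem_Icc, Nat.odd_iff]
    have hj : 1 ≤ j := by
      rcases Nat.eq_zero_or_pos j with h | h
      · subst h; simp at ha
      · exact h
    have h5 : (p * j) % 2 = j % 2 := by
      rw [Nat.mul_mod, hp, one_mul, Nat.mod_mod]
    have h6 : p * (2 * j) < p * (2 * k + 1) := by
      rw [← hl, hK]
      have : p * (2*j) = 2 * (p * j) := by ring
      omega
    have h7 : 2 * j < 2 * k + 1 := Nat.lt_of_mul_lt_mul_left h6
    omega
  · intro a _; rfl

lemma rD_split (g : ℕ → M) (p l k : ℕ) (hp : p % 2 = 1) (K : ℕ) (hl : l = 2*k+1)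
    (hK : p * l = 2*K+1) (hpar : K % 2 = k % 2) :
    rD g K = rD (fun j => if p ∣ j then 1 else g j) K * rD (fun j => g (p*j)) k := by
  have h1 : rD g K = rD (fun j => if p ∣ j then 1 else g j) K
      * rD (fun j => if p ∣ j then g j else 1) K := by
    rw [← rD_mul]
    unfold rD
    apply prod_congr rfl
    intro j _
    by_cases h : p ∣ j <;> simp [h]
  rw [h1]
  congr 1
  unfold rD
  rw [prod_ite, prod_const_one, mul_one, filter_filter]
  symm
  apply prod_bij (fun j _ => p * j)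
  · intro j hj
    simp only [mem_filter, mem_Icc, Nat.even_iff] at hj ⊢
    obtain ⟨⟨ha, hb⟩, hc⟩ := hj
    have hp0 : 1 ≤ p := by omega
    have h3 : 1 ≤ p * j := Nat.mul_pos hp0 ha
    have h4 : 2 * (p * j) + p ≤ 2*K+1 := by
      rw [← hK, hl]; nlinarith
    refine ⟨⟨h3, by omega⟩, ?_, dvd_mul_right p j⟩
    have h5 : (p * j) % 2 = j % 2 := by
      rw [Nat.mul_mod, hp, one_mul, Nat.mod_mod]
    omega
  · intro a _ b _ hab
    exact Nat.eq_of_mul_eq_mul_left (by omega) hab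
  · intro b hb
    simp only [mem_filter, mem_Icc, Nat.even_iff] at hb
    obtain ⟨⟨ha, hb'⟩, hc, ⟨j, rfl⟩⟩ := hb
    refine ⟨j, ?_, rfl⟩
    simp only [mem_filter, mem_Icc, Nat.even_iff]
    have hj : 1 ≤ j := by
      rcases Nat.eq_zero_or_pos j with h | h
      · subst h; simp at ha
      · exact h
    have h5 : (p * j) % 2 = j % 2 := by
      rw [Nat.mul_mod, hp, one_mul, Nat.mod_mod]
    have h6 : p * (2 * j) < p * (2 * k + 1) := by
      rw [← hl, hK]
      have : p * (2*j) = 2 * (p * j) := by ring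
      omega
    have h7 : 2 * j < 2 * k + 1 := Nat.lt_of_mul_lt_mul_left h6
    omega
  · intro a _; rfl

/-- arithmetic progression product -/
def Pq (f : ℤ → M) (Q : ℕ) (a : ℤ) : M := ∏ i ∈ range (2*Q+1), f (a + 4*(i:ℤ))

lemma per_mul (f : ℤ → M) (q : ℤ) (hper : ∀ s, f (s+q) = f s) (s : ℤ) (n : ℕ) :
    f (s + n*q) = f s := by
  induction n with
  | zero => simp
  | succ n ih =>
    have : s + ((n+1:ℕ):ℤ)*q = (s + n*q) + q := by push_cast; ring
    rw [this, hper, ih]

lemma Pq_step (f : ℤ → M) (Q : ℕ) (hper : ∀ s, f (s+(4*(Q:ℤ)+1)) = f s) (a : ℤ) :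
    Pq f Q (a+4) * f a = Pq f Q a * f (a+2) := by
  have h1 : ∏ i ∈ range (2*Q+1+1), f (a + 4*(i:ℤ)) = Pq f Q a * f (a+2) := by
    rw [prod_range_succ]
    congr 1
    have : a + 4*((2*Q+1:ℕ):ℤ) = (a+2) + ((2:ℕ):ℤ)*(4*(Q:ℤ)+1) := by push_cast; ring
    rw [this, per_mul f _ hper]
  have h2 : ∏ i ∈ range (2*Q+1+1), f (a + 4*(i:ℤ)) = Pq f Q (a+4) * f a := by
    rw [prod_range_succ']
    unfold Pq
    congr 1
    · apply prod_congr rfl
      intro i _
      congr 1
      push_cast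
      ring
    · simp
  rw [← h1, ← h2]

lemma Pq_refl (f : ℤ → M) (Q : ℕ) (hper : ∀ s, f (s+(4*(Q:ℤ)+1)) = f s)
    (heven : ∀ s, f (-s) = f s) : Pq f Q 2 = Pq f Q 0 := by
  unfold Pq
  rw [← prod_range_reflect]
  apply prod_congr rfl
  intro i hi
  have hi' : i < 2*Q+1 := by simpa using hi
  have e : ((2*Q+1-1-i : ℕ) : ℤ) = 2*Q - i := by omega
  rw [e]
  have : (2:ℤ) + 4*(2*(Q:ℤ)-i) = -(4*(i:ℤ)) + ((2:ℕ):ℤ)*(4*(Q:ℤ)+1) := by push_cast; ring
  rw [this, per_mul f _ hper, heven]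
  simp

theorem Pq_main (f : ℤ → M) (Q : ℕ) (hper : ∀ s, f (s+(4*(Q:ℤ)+1)) = f s)
    (heven : ∀ s, f (-s) = f s) (h0 : f 0 = 1) (K : ℕ) :
    Pq f Q (2*(K:ℤ)+2) * rN (fun j => f (2*(j:ℤ))) K
      = Pq f Q 0 * rD (fun j => f (2*(j:ℤ))) K := by
  induction K using Nat.twoStepInduction with
  | zero => simp [rN_zero, rD_zero, Pq_refl f Q hper heven]
  | one =>
    rw [rN_one, rD_one]
    have := Pq_step f Q hper 0
    rw [h0] at this
    simpa using this
  | more K ih _ =>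
    rw [rN_add_two, rD_add_two]
    have h := Pq_step f Q hper (2*(K:ℤ)+2)
    have e1 : (2*((K+2:ℕ):ℤ)+2) = 2*(K:ℤ)+2+4 := by push_cast; ring
    have e2 : (2*((K+1:ℕ):ℤ)) = 2*(K:ℤ)+2 := by push_cast; ring
    have e3 : (2*((K+2:ℕ):ℤ)) = 2*(K:ℤ)+2+2 := by push_cast; ring
    rw [e1, e2, e3]
    calc Pq f Q (2*(K:ℤ)+2+4) * (rN (fun j => f (2*(j:ℤ))) K * f (2*(K:ℤ)+2))
        = (Pq f Q (2*(K:ℤ)+2+4) * f (2*(K:ℤ)+2)) * rN (fun j => f (2*(j:ℤ))) K := by
          rw [mul_comm (rN _ _), mul_assoc]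
      _ = (Pq f Q (2*(K:ℤ)+2) * rN (fun j => f (2*(j:ℤ))) K) * f (2*(K:ℤ)+2+2) := by
          rw [h, mul_right_comm]
      _ = Pq f Q 0 * (rD (fun j => f (2*(j:ℤ))) K * f (2*(K:ℤ)+2+2)) := by
          rw [ih, mul_assoc]

end monoid

end Pool.Agent.Swisher
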